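import Mathlib

/-!
# Cochains mod 2 on tuples of points, and the dual of barycentric subdivision

This is the combinatorial part of a self-contained proof of the Borsuk-Ulam theorem.
A cochain of degree `n` is an arbitrary function of `n` points with values in `ZMod 2`.
-/

namespace Pool.Agent.Work.MP_1fb4c7_an

open Finset

variable {V : Type*}

/-- cochains: functions of `n` points with values in `ZMod 2` -/
abbrev Coch (V : Type*) (n : ℕ) := (Fin n → V) → ZMod 2

/-- the coboundary -/
def dl {n : ℕ} (c : Coch V n) : Coch V (n + 1) :=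
  fun σ => ∑ j : Fin (n + 1), c (fun i => σ (j.succAbove i))

/-- inserting a point in front -/
def ins {n : ℕ} (b : V) (c : Coch V (n + 1)) : Coch V n := fun τ => c (Fin.cons b τ)

lemma two_mul_zmod (x : ZMod 2) : x + x = 0 := CharTwo.add_self_eq_zero x

lemma dl_add {n : ℕ} (c c' : Coch V n) : dl (c + c') = dl c + dl c' := by
  ext σ
  simp [dl, Finset.sum_add_distrib]

lemma ins_add {n : ℕ} (b : V) (c c' : Coch V (n + 1)) : ins b (c + c') = ins b c + ins b c' := rfl

lemma cons_succAbove_succ {n : ℕ} (b : V) (τ : Fin (n + 1) → V) (j : Fin (n + 1)) :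
    (fun i => (Fin.cons b τ : Fin (n + 2) → V) (j.succ.succAbove i)) =
      Fin.cons b (fun i => τ (j.succAbove i)) := by
  ext i
  refine Fin.cases ?_ (fun i => ?_) i
  · simp
  · simp

lemma ins_dl {n : ℕ} (b : V) (c : Coch V (n + 1)) : ins b (dl c) = c + dl (ins b c) := by
  ext τ
  simp only [ins, dl, Pi.add_apply]
  rw [Fin.sum_univ_succ]
  congr 1
  apply Finset.sum_congr rfl
  intro j _
  rw [cons_succAbove_succ]

lemma coch_zero (c : Coch V 0) (x y : Fin 0 → V) : c x = c y :=
  congrArg c (Subsingleton.elim x y)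

lemma dl_zero_apply (c : Coch V 0) (σ : Fin 1 → V) (x : Fin 0 → V) : dl c σ = c x := by
  have h : dl c σ = ∑ j : Fin 1, c x := Finset.sum_congr rfl fun j _ => coch_zero c _ _
  rw [h]
  simp

lemma ins_dl_zero (b : V) (c : Coch V 0) : ins b (dl c) = c := by
  ext τ
  exact dl_zero_apply c _ _

lemma dl_dl {n : ℕ} (c : Coch V n) : dl (dl c) = 0 := by
  induction n with
  | zero =>
    ext σ
    have h : dl (dl c) σ = ∑ j : Fin 2, c Fin.elim0 :=
      Finset.sum_congr rfl fun j _ => dl_zero_apply c _ _
    rw [h, Fin.sum_univ_two]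
    exact two_mul_zmod _
  | succ n ih =>
    ext σ
    rw [← Fin.cons_self_tail σ]
    have h1 : dl (dl c) (Fin.cons (σ 0) (Fin.tail σ)) = ins (σ 0) (dl (dl c)) (Fin.tail σ) := rfl
    rw [h1, ins_dl, ins_dl, dl_add, ih, add_zero]
    simp only [Pi.add_apply, Pi.zero_apply]
    exact two_mul_zmod _

section anti

variable [AddCommGroup V]

/-- the antipodal map on cochains -/
def anti {n : ℕ} (c : Coch V n) : Coch V n := fun σ => c (-σ)

lemma anti_anti {n : ℕ} (c : Coch V n) : anti (anti c) = c := by
  ext σ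
  simp [anti]

lemma anti_add {n : ℕ} (c c' : Coch V n) : anti (c + c') = anti c + anti c' := rfl

lemma anti_dl {n : ℕ} (c : Coch V n) : anti (dl c) = dl (anti c) := rfl

lemma ins_anti {n : ℕ} (b : V) (c : Coch V (n + 1)) : ins b (anti c) = anti (ins (-b) c) := by
  ext τ
  simp only [ins, anti]
  congr 1
  ext i
  refine Fin.cases ?_ (fun i => ?_) i
  · simp
  · simp

end anti

section sd

variable [AddCommGroup V] [Module ℝ V]

/-- the barycenter of a tuple -/
noncomputable def bary {n : ℕ} (σ : Fin n → V) : V := (n : ℝ)⁻¹ • ∑ i, σ i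

/-- the dual of barycentric subdivision -/
noncomputable def sd : (n : ℕ) → Coch V n → Coch V n
  | 0, c => c
  | n + 1, c => fun σ => dl (sd n (ins (bary σ) c)) σ

lemma sd_succ {n : ℕ} (c : Coch V (n + 1)) (σ : Fin (n + 1) → V) :
    sd (n + 1) c σ = dl (sd n (ins (bary σ) c)) σ := rfl

lemma sd_add {n : ℕ} (c c' : Coch V n) : sd n (c + c') = sd n c + sd n c' := by
  induction n with
  | zero => rfl
  | succ n ih =>
    ext σ
    rw [sd_succ, ins_add, ih, dl_add]
    rfl

lemma sd_dl {n : ℕ} (c : Coch V n) : sd (n + 1) (dl c) = dl (sd n c) := by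
  induction n with
  | zero =>
    ext σ
    rw [sd_succ, ins_dl_zero]
  | succ n ih =>
    ext σ
    rw [sd_succ, ins_dl, sd_add, ih, dl_add, dl_dl, add_zero]

lemma bary_neg {n : ℕ} (σ : Fin n → V) : bary (-σ) = -bary σ := by
  simp [bary]

lemma sd_anti {n : ℕ} (c : Coch V n) : sd n (anti c) = anti (sd n c) := by
  induction n with
  | zero => rfl
  | succ n ih =>
    ext σ
    rw [sd_succ, ins_anti, ih, ← anti_dl]
    simp only [anti]
    rw [sd_succ, bary_neg]

/-- iterated subdivision -/
noncomputable def sdN (N : ℕ) {n : ℕ} (c : Coch V n) : Coch V n := (sd n)^[N] c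

lemma sdN_zero {n : ℕ} (c : Coch V n) : sdN 0 c = c := rfl

lemma sdN_succ (N : ℕ) {n : ℕ} (c : Coch V n) : sdN (N + 1) c = sd n (sdN N c) := by
  simp [sdN, Function.iterate_succ_apply']

lemma sdN_add (N : ℕ) {n : ℕ} (c c' : Coch V n) : sdN N (c + c') = sdN N c + sdN N c' := by
  induction N with
  | zero => rfl
  | succ N ih => rw [sdN_succ, ih, sd_add, sdN_succ, sdN_succ]

lemma sdN_dl (N : ℕ) {n : ℕ} (c : Coch V n) : sdN N (dl c) = dl (sdN N c) := by
  induction N with
  | zero => rfl
  | succ N ih => rw [sdN_succ, ih, sd_dl, sdN_succ]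

lemma sdN_anti (N : ℕ) {n : ℕ} (c : Coch V n) : sdN N (anti c) = anti (sdN N c) := by
  induction N with
  | zero => rfl
  | succ N ih => rw [sdN_succ, ih, sd_anti, sdN_succ]

end sd

section chain

variable [AddCommGroup V]

/-- evaluation on the upper hemisphere of the boundary of the cross-polytope with vertices
`± e j` -/
def ev (e : ℕ → V) : (i : ℕ) → Coch V (i + 1) → ZMod 2
  | 0, c => c (fun _ => e 0)
  | i + 1, c => ev e i (ins (e (i + 1)) c) + ev e i (anti (ins (e (i + 1)) c))

lemma ev_succ (e : ℕ → V) (i : ℕ) (c : Coch V (i + 2)) :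
    ev e (i + 1) c = ev e i (ins (e (i + 1)) c) + ev e i (anti (ins (e (i + 1)) c)) := rfl

lemma ev_add (e : ℕ → V) (i : ℕ) (c c' : Coch V (i + 1)) :
    ev e i (c + c') = ev e i c + ev e i c' := by
  induction i with
  | zero => rfl
  | succ i ih =>
    rw [ev_succ, ins_add, ih, anti_add, ih, ev_succ, ev_succ]
    ring

lemma ev_dl_zero (e : ℕ → V) (c : Coch V 0) : ev e 0 (dl c) = c Fin.elim0 :=
  dl_zero_apply c _ _

/-- the boundary of the upper hemisphere of dimension `i + 1` is the sum of the two hemispheres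
of dimension `i` -/
lemma ev_dl (e : ℕ → V) (i : ℕ) (c : Coch V (i + 1)) :
    ev e (i + 1) (dl c) = ev e i c + ev e i (anti c) := by
  induction i with
  | zero =>
    rw [ev_succ, ins_dl, ev_add, anti_add, ev_add, anti_dl, ev_dl_zero, ev_dl_zero]
    have h : anti (ins (e 1) c) Fin.elim0 = ins (e 1) c Fin.elim0 :=
      coch_zero (ins (e 1) c) (-Fin.elim0) Fin.elim0
    have h0 : e (0 + 1) = e 1 := rfl
    rw [h0, h]
    have := two_mul_zmod (ins (e 1) c Fin.elim0)
    linear_combination this
  | succ i ih =>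
    rw [ev_succ, ins_dl, ev_add, anti_add, ev_add, anti_dl, ih, ih, anti_anti]
    have h1 := two_mul_zmod (ev e i (ins (e (i + 1 + 1)) c))
    have h2 := two_mul_zmod (ev e i (anti (ins (e (i + 1 + 1)) c)))
    linear_combination h1 + h2

/-- the value of the evaluation vanishes if the cochain vanishes on all the simplices
`(± e i, ..., ± e 0)` -/
lemma ev_vanish (e : ℕ → V) [Module ℝ V] (i : ℕ) (c : Coch V (i + 1))
    (h : ∀ s : ℕ → ℝ, (∀ j, s j = 1 ∨ s j = -1) →
      c (fun l => s (i - l) • e (i - l)) = 0) : ev e i c = 0 := by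
  induction i with
  | zero =>
    have h1 := h (fun _ => 1) (fun _ => Or.inl rfl)
    simp only [one_smul] at h1
    simp only [ev]
    convert h1 using 2
    ext l
    simp
  | succ i ih =>
    have key : ∀ s : ℕ → ℝ, (∀ j, s j = 1 ∨ s j = -1) →
        c (Fin.cons (e (i + 1)) (fun l : Fin (i + 1) => s (i - l) • e (i - l))) = 0 := by
      intro s hs
      have h1 := h (Function.update s (i + 1) 1) (by
        intro j
        by_cases hj : j = i + 1
        · subst hj; left; simp
        · rw [Function.update_of_ne hj]; exact hs j)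
      rw [← h1]
      congr 1
      ext l
      refine Fin.cases ?_ (fun l => ?_) l
      · simp
      · simp only [Fin.cons_succ, Fin.val_succ]
        have h2 : i + 1 - (l + 1 : ℕ) = i - l := by omega
        rw [h2, Function.update_of_ne (by omega)]
    rw [ev_succ, ih, ih, add_zero]
    · intro s hs
      simp only [anti, ins]
      have h1 := key (fun j => -s j) (by
        intro j
        rcases hs j with h2 | h2
        · right; rw [h2]
        · left; rw [h2]; ring)
      rw [← h1]
      congr 1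
      congr 1
      ext l
      simp
    · intro s hs
      exact key s hs

end chain

section cup

/-- the cocycles: iterated cup product of the coboundaries of the functions `α 0, α 1, ...` -/
def w (α : ℕ → V → ZMod 2) : (n : ℕ) → Coch V (n + 1)
  | 0 => fun _ => 1
  | n + 1 => fun σ => (α n (σ 0) + α n (σ 1)) * w α n (Fin.tail σ)

/-- the cochains -/
def th (α : ℕ → V → ZMod 2) (n : ℕ) : Coch V (n + 1) := fun σ => α n (σ 0) * w α n σ

lemma w_succ (α : ℕ → V → ZMod 2) (n : ℕ) (σ : Fin (n + 2) → V) :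
    w α (n + 1) σ = (α n (σ 0) + α n (σ 1)) * w α n (Fin.tail σ) := rfl

lemma dl_w (α : ℕ → V → ZMod 2) (n : ℕ) : dl (w α n) = 0 := by
  induction n with
  | zero =>
    ext σ
    have h : dl (w α 0) σ = ∑ j : Fin 2, (1 : ZMod 2) := rfl
    rw [h, Fin.sum_univ_two]
    exact two_mul_zmod 1
  | succ n ih =>
    ext σ
    have h0 := congrFun ih (Fin.tail σ)
    simp only [dl, Pi.zero_apply] at h0
    rw [Fin.sum_univ_succ] at h0
    simp only [dl, Pi.zero_apply, w_succ]
    rw [Fin.sum_univ_succ, Fin.sum_univ_succ]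
    have e1 : ∀ j : Fin (n + 1), (α n (σ (j.succ.succ.succAbove 0)) +
        α n (σ (j.succ.succ.succAbove 1))) *
        w α n (Fin.tail fun i => σ (j.succ.succ.succAbove i)) =
        (α n (σ 0) + α n (σ 1)) * w α n (fun i => Fin.tail σ (j.succ.succAbove i)) := by
      intro j
      have h1 : j.succ.succ.succAbove (0 : Fin (n + 2)) = 0 := by simp
      have h2 : j.succ.succ.succAbove (1 : Fin (n + 2)) = 1 := by
        have h3 : (1 : Fin (n + 2)) = Fin.succ 0 := rfl
        rw [h3, Fin.succ_succAbove_succ]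
        simp
      rw [h1, h2]
      congr 2
      ext i
      simp [Fin.tail]
    simp only [e1]
    rw [← Finset.mul_sum]
    have e2 : ∑ j : Fin (n + 1), w α n (fun i => Fin.tail σ (j.succ.succAbove i)) =
        w α n (fun i => Fin.tail σ ((0 : Fin (n + 2)).succAbove i)) := by
      have h4 := two_mul_zmod (w α n (fun i => Fin.tail σ ((0 : Fin (n + 2)).succAbove i)))
      linear_combination h0 - h4
    rw [e2]
    have h5 : (fun i => Fin.tail σ ((0 : Fin (n + 2)).succAbove i)) = Fin.tail (Fin.tail σ) := by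
      ext i; simp [Fin.tail]
    have h6 : (Fin.tail fun i => σ ((0 : Fin (n + 3)).succAbove i)) = Fin.tail (Fin.tail σ) := by
      ext i; simp [Fin.tail]
    have h7 : (Fin.tail fun i => σ ((Fin.succ 0 : Fin (n + 3)).succAbove i)) =
        Fin.tail (Fin.tail σ) := by
      ext i
      simp only [Fin.tail]
      congr 1
    rw [h5, h6, h7]
    have h8 : (Fin.succ 0 : Fin (n + 3)).succAbove (0 : Fin (n + 2)) = 0 := by simp
    have h9 : (Fin.succ 0 : Fin (n + 3)).succAbove (1 : Fin (n + 2)) = 2 := rfl
    have h10 : (0 : Fin (n + 3)).succAbove (0 : Fin (n + 2)) = 1 := rfl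
    have h11 : (0 : Fin (n + 3)).succAbove (1 : Fin (n + 2)) = 2 := rfl
    rw [h8, h9, h10, h11]
    have a0 := two_mul_zmod (α n (σ 0))
    have a1 := two_mul_zmod (α n (σ 1))
    have a2 := two_mul_zmod (α n (σ 2))
    linear_combination (a0 + a1 + a2) * w α n (Fin.tail (Fin.tail σ))

lemma dl_th (α : ℕ → V → ZMod 2) (n : ℕ) : dl (th α n) = w α (n + 1) := by
  ext σ
  have h0 := congrFun (dl_w α n) σ
  simp only [dl, Pi.zero_apply] at h0
  rw [Fin.sum_univ_succ] at h0
  simp only [dl, th, w_succ]
  rw [Fin.sum_univ_succ]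
  have e1 : ∀ j : Fin (n + 1), α n (σ (j.succ.succAbove 0)) *
      w α n (fun i => σ (j.succ.succAbove i)) =
      α n (σ 0) * w α n (fun i => σ (j.succ.succAbove i)) := by
    intro j
    simp
  simp only [e1]
  rw [← Finset.mul_sum]
  have h5 : (fun i => σ ((0 : Fin (n + 2)).succAbove i)) = Fin.tail σ := by
    ext i; simp [Fin.tail]
  rw [h5] at h0 ⊢
  have e2 : ∑ j : Fin (n + 1), w α n (fun i => σ (j.succ.succAbove i)) =
      w α n (Fin.tail σ) := by
    have h4 := two_mul_zmod (w α n (Fin.tail σ))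
    linear_combination h0 - h4
  rw [e2]
  have h10 : (0 : Fin (n + 2)).succAbove (0 : Fin (n + 1)) = 1 := rfl
  rw [h10]
  ring

/-- the cocycle vanishes when some of the functions is constant on the tuple -/
lemma w_eq_zero (α : ℕ → V → ZMod 2) {n j : ℕ} (hj : j < n) (σ : Fin (n + 1) → V)
    (h : ∀ i, α j (σ i) = α j (σ 0)) : w α n σ = 0 := by
  induction n with
  | zero => omega
  | succ n ih =>
    rw [w_succ]
    rcases Nat.lt_succ_iff_lt_or_eq.1 hj with h1 | rfl
    · rw [ih h1 (Fin.tail σ) (by
        intro i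
        simp only [Fin.tail]
        rw [h, h (Fin.succ 0)]), mul_zero]
    · rw [h 1, two_mul_zmod, zero_mul]

end cup

end Pool.Agent.Work.MP_1fb4c7_an
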