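import Mathlib
import Pool.Agent.Work.MP_1fb4c7_an.Cochain

/-!
# The Borsuk-Ulam theorem

Every `m` odd continuous real functions on the boundary of the cross-polytope in `ℝ^(m+1)` have a
common zero.
-/

namespace Pool.Agent.Work.MP_1fb4c7_an

open Finset Metric

section normed

variable {V : Type*} [NormedAddCommGroup V] [NormedSpace ℝ V]

lemma bary_mem {C : Set V} (hC : Convex ℝ C) {n : ℕ} (σ : Fin (n + 1) → V)
    (h : ∀ i, σ i ∈ C) : bary σ ∈ C := by
  unfold bary
  rw [Finset.smul_sum]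
  apply hC.sum_mem
  · intro i _
    positivity
  · simp only [Finset.sum_const, Finset.card_univ, Fintype.card_fin, nsmul_eq_mul]
    push_cast
    field_simp
  · intro i _
    exact h i

lemma dist_bary {n : ℕ} (σ : Fin (n + 1) → V) {d : ℝ} (h : ∀ i j, dist (σ i) (σ j) ≤ d)
    (j : Fin (n + 1)) : dist (bary σ) (σ j) ≤ (n / (n + 1) : ℝ) * d := by
  have hn : (0 : ℝ) < n + 1 := by positivity
  have e : bary σ - σ j = ((n : ℝ) + 1)⁻¹ • ∑ i, (σ i - σ j) := by
    unfold bary
    rw [Finset.sum_sub_distrib, smul_sub]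
    simp only [Finset.sum_const, Finset.card_univ, Fintype.card_fin]
    rw [← Nat.cast_smul_eq_nsmul ℝ (n + 1), smul_smul]
    push_cast
    rw [inv_mul_cancel₀ hn.ne', one_smul]
  rw [dist_eq_norm, e, norm_smul, Real.norm_eq_abs, abs_of_pos (inv_pos.2 hn)]
  have h1 : ‖∑ i, (σ i - σ j)‖ ≤ n * d := by
    refine (norm_sum_le _ _).trans ?_
    rw [← Finset.add_sum_erase _ _ (Finset.mem_univ j)]
    simp only [sub_self, norm_zero, zero_add]
    calc ∑ i ∈ Finset.univ.erase j, ‖σ i - σ j‖ ≤ ∑ i ∈ Finset.univ.erase j, d := by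
          apply Finset.sum_le_sum
          intro i _
          rw [← dist_eq_norm]
          exact h i j
      _ = n * d := by
          rw [Finset.sum_const, Finset.card_erase_of_mem (Finset.mem_univ j)]
          simp
  calc ((n : ℝ) + 1)⁻¹ * ‖∑ i, (σ i - σ j)‖ ≤ ((n : ℝ) + 1)⁻¹ * (n * d) := by gcongr
    _ = _ := by rw [div_eq_mul_inv]; ring

lemma sd_vanish (m : ℕ) {d : ℝ} (hd : 0 ≤ d) {n : ℕ} (hn : n ≤ m + 1) {C : Set V}
    (hC : Convex ℝ C) (c : Coch V n)
    (h : ∀ σ : Fin n → V, (∀ i, σ i ∈ C) → (∀ i j, dist (σ i) (σ j) ≤ (m / (m + 1) : ℝ) * d) →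
      c σ = 0)
    (σ : Fin n → V) (h1 : ∀ i, σ i ∈ C) (h2 : ∀ i j, dist (σ i) (σ j) ≤ d) : sd n c σ = 0 := by
  induction n generalizing C with
  | zero => exact h σ h1 (fun i => i.elim0)
  | succ n ih =>
    have hκ : (n / (n + 1) : ℝ) * d ≤ (m / (m + 1) : ℝ) * d := by
      have h3 : (n : ℝ) ≤ m := by exact_mod_cast (by omega : n ≤ m)
      apply mul_le_mul_of_nonneg_right _ hd
      rw [div_le_div_iff₀ (by positivity) (by positivity)]
      nlinarith
    have hκ0 : 0 ≤ (m / (m + 1) : ℝ) * d := by positivity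
    rw [sd_succ]
    simp only [dl]
    apply Finset.sum_eq_zero
    intro j _
    have hb : bary σ ∈ C := bary_mem hC σ h1
    apply ih (by omega) (C := C ∩ closedBall (bary σ) ((m / (m + 1) : ℝ) * d))
      (hC.inter (convex_closedBall _ _))
    · intro τ hτ hτ2
      apply h
      · intro i
        refine Fin.cases ?_ (fun i => ?_) i
        · simpa using hb
        · simpa using (hτ i).1
      · intro i k
        refine Fin.cases ?_ (fun i => ?_) i
        · refine Fin.cases ?_ (fun k => ?_) k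
          · simpa using hκ0
          · simp only [Fin.cons_zero, Fin.cons_succ]
            rw [dist_comm]
            exact mem_closedBall.1 (hτ k).2
        · refine Fin.cases ?_ (fun k => ?_) k
          · simp only [Fin.cons_zero, Fin.cons_succ]
            exact mem_closedBall.1 (hτ i).2
          · simp only [Fin.cons_succ]
            exact hτ2 i k
    · intro i
      refine ⟨h1 _, ?_⟩
      rw [mem_closedBall, dist_comm]
      exact (dist_bary σ h2 _).trans hκ
    · intro i k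
      exact h2 _ _

lemma sdN_vanish (m N : ℕ) {d : ℝ} (hd : 0 ≤ d) {n : ℕ} (hn : n ≤ m + 1) {C : Set V}
    (hC : Convex ℝ C) (c : Coch V n)
    (h : ∀ σ : Fin n → V, (∀ i, σ i ∈ C) → (∀ i j, dist (σ i) (σ j) ≤ (m / (m + 1) : ℝ) ^ N * d) →
      c σ = 0)
    (σ : Fin n → V) (h1 : ∀ i, σ i ∈ C) (h2 : ∀ i j, dist (σ i) (σ j) ≤ d) : sdN N c σ = 0 := by
  induction N generalizing d σ with
  | zero =>
    apply h σ h1
    simpa using h2
  | succ N ih =>
    rw [sdN_succ]
    refine sd_vanish m hd hn hC _ ?_ σ h1 h2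
    intro τ hτ hτ2
    refine ih (by positivity) ?_ τ hτ hτ2
    intro ρ hρ hρ2
    apply h ρ hρ
    intro i j
    refine (hρ2 i j).trans (le_of_eq ?_)
    ring

end normed

/-- the boundary of the cross-polytope -/
def CP (m : ℕ) : Set (Fin (m + 1) → ℝ) := {v | ∑ i, |v i| = 1}

/-- the face of the cross-polytope given by the signs `s` -/
def face (m : ℕ) (s : ℕ → ℝ) : Set (Fin (m + 1) → ℝ) :=
  {v | (∀ j : Fin (m + 1), 0 ≤ s j * v j) ∧ ∑ j : Fin (m + 1), s j * v j = 1}

lemma convex_face (m : ℕ) (s : ℕ → ℝ) : Convex ℝ (face m s) := by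
  intro x hx y hy a b ha hb hab
  refine ⟨fun j => ?_, ?_⟩
  · simp only [Pi.add_apply, Pi.smul_apply, smul_eq_mul]
    have h1 := mul_nonneg ha (hx.1 j)
    have h2 := mul_nonneg hb (hy.1 j)
    nlinarith
  · have h1 : ∑ j : Fin (m + 1), s j * (a • x + b • y) j =
        a * ∑ j : Fin (m + 1), s j * x j + b * ∑ j : Fin (m + 1), s j * y j := by
      rw [Finset.mul_sum, Finset.mul_sum, ← Finset.sum_add_distrib]
      apply Finset.sum_congr rfl
      intro j _
      simp only [Pi.add_apply, Pi.smul_apply, smul_eq_mul]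
      ring
    rw [h1, hx.2, hy.2]
    linarith

lemma face_subset {m : ℕ} {s : ℕ → ℝ} (hs : ∀ j, s j = 1 ∨ s j = -1) : face m s ⊆ CP m := by
  intro v hv
  have h : ∀ j : Fin (m + 1), |v j| = s j * v j := by
    intro j
    have h1 := hv.1 j
    rcases hs j with h2 | h2
    · rw [h2, one_mul] at h1 ⊢
      exact abs_of_nonneg h1
    · rw [h2] at h1 ⊢
      rw [abs_of_nonpos (by linarith)]
      ring
  show ∑ i, |v i| = 1
  simp only [h]
  exact hv.2

/-- the vertices of the cross-polytope -/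
noncomputable def vert (m : ℕ) (k : ℕ) : Fin (m + 1) → ℝ :=
  if h : k < m + 1 then Pi.single ⟨k, h⟩ 1 else 0

lemma vert_mem {m : ℕ} {s : ℕ → ℝ} (hs : ∀ j, s j = 1 ∨ s j = -1) {k : ℕ} (hk : k < m + 1) :
    s k • vert m k ∈ face m s := by
  have h1 : ∀ j : Fin (m + 1), s j * (s k • vert m k) j = if j = ⟨k, hk⟩ then 1 else 0 := by
    intro j
    simp only [vert, hk, dif_pos, Pi.smul_apply, smul_eq_mul]
    by_cases hj : j = ⟨k, hk⟩
    · subst hj
      rw [Pi.single_eq_same, if_pos rfl]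
      rcases hs k with h2 | h2 <;> simp only [h2] <;> ring
    · rw [Pi.single_eq_of_ne hj, if_neg hj]
      ring
  refine ⟨fun j => ?_, ?_⟩
  · rw [h1]
    split_ifs <;> norm_num
  · simp only [h1]
    simp

lemma vert_dist {m : ℕ} {s : ℕ → ℝ} (hs : ∀ j, s j = 1 ∨ s j = -1) (k l : ℕ) :
    dist (s k • vert m k) (s l • vert m l) ≤ 2 := by
  have h1 : ∀ k, ‖s k • vert m k‖ ≤ 1 := by
    intro k
    rw [norm_smul]
    have h2 : ‖s k‖ = 1 := by
      rcases hs k with h2 | h2 <;> simp [h2]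
    rw [h2, one_mul]
    unfold vert
    split_ifs with h3
    · rw [pi_norm_le_iff_of_nonneg zero_le_one]
      intro j
      by_cases hj : j = ⟨k, h3⟩
      · subst hj; simp
      · rw [Pi.single_eq_of_ne hj]; simp
    · simp
  rw [dist_eq_norm]
  have := norm_sub_le (s k • vert m k) (s l • vert m l)
  linarith [h1 k, h1 l]

lemma isCompact_CP (m : ℕ) : IsCompact (CP m) := by
  apply Metric.isCompact_of_isClosed_isBounded
  · apply isClosed_eq
    · fun_prop
    · exact continuous_const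
  · rw [isBounded_iff_forall_norm_le]
    refine ⟨1, fun v hv => ?_⟩
    rw [pi_norm_le_iff_of_nonneg zero_le_one]
    intro j
    have h1 : ∑ i, |v i| = 1 := hv
    rw [← h1, Real.norm_eq_abs]
    exact Finset.single_le_sum (f := fun i => |v i|) (fun _ _ => abs_nonneg _) (Finset.mem_univ j)

lemma neg_mem_CP {m : ℕ} {v : Fin (m + 1) → ℝ} (hv : v ∈ CP m) : -v ∈ CP m := by
  have h : ∑ i, |v i| = 1 := hv
  show ∑ i, |(-v) i| = 1
  simpa using h

lemma ne_neg_of_mem_CP {m : ℕ} {v : Fin (m + 1) → ℝ} (hv : v ∈ CP m) : v ≠ -v := by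
  intro h
  have h1 : ∀ i, v i = 0 := by
    intro i
    have := congrFun h i
    simp only [Pi.neg_apply] at this
    linarith
  have h2 : ∑ i, |v i| = 1 := hv
  simp [h1] at h2

lemma sd_one {V : Type*} [AddCommGroup V] [Module ℝ V] (c : Coch V 1) : sd 1 c = c := by
  ext σ
  rw [sd_succ]
  rw [dl_zero_apply (sd 0 (ins (bary σ) c)) σ Fin.elim0]
  simp only [sd, ins]
  congr 1
  ext i
  have : i = 0 := Subsingleton.elim (α := Fin 1) _ _
  subst this
  simp [bary]

lemma sdN_one {V : Type*} [AddCommGroup V] [Module ℝ V] (N : ℕ) (c : Coch V 1) :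
    sdN N c = c := by
  induction N with
  | zero => rfl
  | succ N ih => rw [sdN_succ, ih, sd_one]

lemma ev_sdN_vanish (m N : ℕ) {i : ℕ} (hi : i ≤ m) (c : Coch (Fin (m + 1) → ℝ) (i + 1))
    (h : ∀ σ : Fin (i + 1) → (Fin (m + 1) → ℝ), (∀ l, σ l ∈ CP m) →
      (∀ k l, dist (σ k) (σ l) ≤ (m / (m + 1) : ℝ) ^ N * 2) → c σ = 0) :
    ev (vert m) i (sdN N c) = 0 := by
  apply ev_vanish
  intro s hs
  refine sdN_vanish m N (by norm_num : (0 : ℝ) ≤ 2) (by omega) (convex_face m s) c ?_ _ ?_ ?_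
  · intro σ hσ hσ2
    exact h σ (fun l => face_subset hs (hσ l)) hσ2
  · intro l
    exact vert_mem hs (by omega)
  · intro k l
    exact vert_dist hs _ _

lemma w_anti {m : ℕ} {α : ℕ → (Fin (m + 1) → ℝ) → ZMod 2}
    (hα : ∀ j, ∀ v ∈ CP m, α j (-v) = α j v + 1) (n : ℕ) (σ : Fin (n + 1) → (Fin (m + 1) → ℝ))
    (hσ : ∀ l, σ l ∈ CP m) : w α n (-σ) = w α n σ := by
  induction n with
  | zero => rfl
  | succ n ih =>
    rw [w_succ, w_succ]
    have h1 : Fin.tail (-σ) = -Fin.tail σ := rfl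
    rw [h1, ih (Fin.tail σ) (fun l => hσ _)]
    simp only [Pi.neg_apply]
    rw [hα n _ (hσ 0), hα n _ (hσ 1)]
    have h2 := two_mul_zmod (1 : ZMod 2)
    linear_combination h2 * w α n (Fin.tail σ)

/-- **Borsuk-Ulam theorem** on the boundary of the cross-polytope. -/
theorem borsuk_ulam (m : ℕ) (f : Fin m → (Fin (m + 1) → ℝ) → ℝ)
    (hc : ∀ j, ContinuousOn (f j) (CP m)) (hodd : ∀ j, ∀ v ∈ CP m, f j (-v) = -f j v) :
    ∃ v ∈ CP m, ∀ j, f j v = 0 := by
  classical
  by_contra hcon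
  push Not at hcon
  -- a lower bound
  obtain ⟨c0, hc0, hlow⟩ : ∃ c0 : ℝ, 0 < c0 ∧ ∀ v ∈ CP m, ∃ j, c0 ≤ |f j v| := by
    have hG : ContinuousOn (fun v => ∑ j, |f j v|) (CP m) :=
      continuousOn_finsetSum _ fun j _ => (hc j).abs
    have hne : (CP m).Nonempty :=
      ⟨_, face_subset (s := fun _ => 1) (fun _ => Or.inl rfl)
        (vert_mem (s := fun _ => 1) (fun _ => Or.inl rfl) (k := 0) (by omega))⟩
    obtain ⟨v0, hv0, hmin⟩ := (isCompact_CP m).exists_isMinOn hne hG
    have hpos : 0 < ∑ j, |f j v0| := by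
      obtain ⟨j, hj⟩ := hcon v0 hv0
      exact Finset.sum_pos' (fun _ _ => abs_nonneg _) ⟨j, Finset.mem_univ _, abs_pos.2 hj⟩
    refine ⟨(∑ j, |f j v0|) / (m + 1), by positivity, fun v hv => ?_⟩
    by_contra hcon2
    push Not at hcon2
    have h1 : ∑ j, |f j v0| ≤ ∑ j, |f j v| := hmin hv
    have h2 : ∑ j, |f j v| ≤ ∑ _j : Fin m, (∑ j, |f j v0|) / (m + 1) :=
      Finset.sum_le_sum fun j _ => (hcon2 j).le
    rw [Finset.sum_const, Finset.card_univ, Fintype.card_fin, nsmul_eq_mul] at h2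
    have h3 : (m : ℝ) * ((∑ j, |f j v0|) / (m + 1)) < ∑ j, |f j v0| := by
      rw [← mul_div_assoc, div_lt_iff₀ (by positivity)]
      nlinarith
    linarith
  -- uniform continuity
  obtain ⟨δ, hδ, hunif⟩ : ∃ δ : ℝ, 0 < δ ∧ ∀ v ∈ CP m, ∀ w ∈ CP m, dist v w < δ →
      ∀ j, |f j v - f j w| < c0 := by
    have hF : ContinuousOn (fun v => fun j => f j v) (CP m) := continuousOn_pi.2 hc
    have hU := (isCompact_CP m).uniformContinuousOn_of_continuous hF
    rw [Metric.uniformContinuousOn_iff] at hU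
    obtain ⟨δ, hδ, h⟩ := hU c0 hc0
    refine ⟨δ, hδ, fun v hv w hw hvw j => ?_⟩
    have h1 := h v hv w hw hvw
    rw [dist_pi_lt_iff hc0] at h1
    have h2 := h1 j
    rwa [Real.dist_eq] at h2
  obtain ⟨N, hN⟩ : ∃ N : ℕ, (m / (m + 1) : ℝ) ^ N < δ / 2 := by
    apply exists_pow_lt_of_lt_one (by positivity)
    rw [div_lt_one (by positivity)]
    linarith
  -- the functions `α`
  let r : (Fin (m + 1) → ℝ) → Prop := fun v => WellOrderingRel v (-v)
  let α : ℕ → (Fin (m + 1) → ℝ) → ZMod 2 := fun j v =>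
    if hj : j < m then (if 0 < f ⟨j, hj⟩ v ∨ (f ⟨j, hj⟩ v = 0 ∧ r v) then 1 else 0)
    else (if r v then 1 else 0)
  have hr : ∀ v ∈ CP m, (r (-v) ↔ ¬ r v) := by
    intro v hv
    have h1 : v ≠ -v := ne_neg_of_mem_CP hv
    simp only [r, neg_neg]
    constructor
    · intro h2 h3
      exact (asymm_of WellOrderingRel h2) h3
    · intro h2
      rcases trichotomous_of WellOrderingRel v (-v) with h3 | h3 | h3
      · exact absurd h3 h2
      · exact absurd h3 h1
      · exact h3
  have h11 : (1 : ZMod 2) + 1 = 0 := rfl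
  have hα : ∀ j, ∀ v ∈ CP m, α j (-v) = α j v + 1 := by
    intro j v hv
    have hrv := hr v hv
    by_cases hj : j < m
    · simp only [α, hj, dif_pos]
      rw [hodd ⟨j, hj⟩ v hv]
      rcases lt_trichotomy (f ⟨j, hj⟩ v) 0 with h | h | h
      · rw [if_pos (Or.inl (by linarith)), if_neg (by
          rintro (h2 | ⟨h2, -⟩) <;> linarith), zero_add]
      · by_cases h2 : r v
        · rw [if_neg (by
            rintro (h3 | ⟨-, h3⟩)
            · linarith
            · exact (hrv.1 h3) h2), if_pos (Or.inr ⟨h, h2⟩)]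
          rfl
        · rw [if_pos (Or.inr ⟨by rw [h]; simp, hrv.2 h2⟩), if_neg (by
            rintro (h3 | ⟨-, h3⟩)
            · linarith
            · exact h2 h3), zero_add]
      · rw [if_neg (by rintro (h2 | ⟨h2, -⟩) <;> linarith), if_pos (Or.inl h)]
        rfl
    · simp only [α, hj, dif_neg, not_false_eq_true]
      by_cases h2 : r v
      · rw [if_neg (fun h3 => (hrv.1 h3) h2), if_pos h2]
        rfl
      · rw [if_pos (hrv.2 h2), if_neg h2, zero_add]
  -- the invariant
  have hinv : ∀ i ≤ m, ev (vert m) i (sdN N (w α i)) = 1 := by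
    intro i
    induction i with
    | zero =>
      intro _
      rw [sdN_one]
      rfl
    | succ i ih =>
      intro hi
      have h1 := ih (by omega)
      rw [← dl_th, sdN_dl, ev_dl, ← sdN_anti, ← ev_add, ← sdN_add]
      have h2 : th α i + anti (th α i) = w α i + (w α i + (th α i + anti (th α i))) := by
        ext σ
        simp only [Pi.add_apply]
        have := two_mul_zmod (w α i σ)
        linear_combination -this
      rw [h2, sdN_add, ev_add, h1]
      have h3 : ev (vert m) i (sdN N (w α i + (th α i + anti (th α i)))) = 0 := by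
        apply ev_sdN_vanish m N (by omega)
        intro σ hσ _
        simp only [Pi.add_apply, anti, th]
        rw [w_anti hα i σ hσ]
        simp only [Pi.neg_apply]
        rw [hα i _ (hσ 0)]
        have h4 := two_mul_zmod (w α i σ)
        have h5 := two_mul_zmod (α i (σ 0))
        linear_combination h4 + h5 * w α i σ
      rw [h3, add_zero]
  have hfin : ev (vert m) m (sdN N (w α m)) = 0 := by
    apply ev_sdN_vanish m N le_rfl
    intro σ hσ hσ2
    obtain ⟨j, hj⟩ := hlow (σ 0) (hσ 0)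
    apply w_eq_zero α j.2
    intro i
    have h1 : dist (σ i) (σ 0) < δ := by
      refine (hσ2 i 0).trans_lt ?_
      linarith
    have h2 := hunif (σ i) (hσ i) (σ 0) (hσ 0) h1 j
    simp only [α, j.2, dif_pos, Fin.eta]
    rw [abs_lt] at h2
    rcases le_abs.1 hj with h3 | h3
    · rw [if_pos (Or.inl (by linarith)), if_pos (Or.inl (by linarith))]
    · rw [if_neg (by rintro (h4 | ⟨h4, -⟩) <;> linarith),
        if_neg (by rintro (h4 | ⟨h4, -⟩) <;> linarith)]
  rw [hinv m le_rfl] at hfin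
  exact one_ne_zero hfin

end Pool.Agent.Work.MP_1fb4c7_an
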