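import Mathlib
import Pool.Agent.Work.MP_1fb4c7_an.BorsukUlam

/-!
# The Borsuk-Ulam theorem on the sphere
-/

namespace Pool.Agent.Work.MP_1fb4c7_an

open Finset Metric

/-- **Borsuk-Ulam theorem**: `m` odd continuous real functions on the unit sphere of `ℝ^(m+1)` have
a common zero. -/
theorem borsuk_ulam_sphere (m : ℕ) (f : Fin m → EuclideanSpace ℝ (Fin (m + 1)) → ℝ)
    (hc : ∀ j, ContinuousOn (f j) (sphere 0 1)) (hodd : ∀ j, ∀ v ∈ sphere 0 1, f j (-v) = -f j v) :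
    ∃ v ∈ sphere (0 : EuclideanSpace ℝ (Fin (m + 1))) 1, ∀ j, f j v = 0 := by
  let g : (Fin (m + 1) → ℝ) → EuclideanSpace ℝ (Fin (m + 1)) :=
    fun v => ‖WithLp.toLp 2 v‖⁻¹ • WithLp.toLp 2 v
  have hne : ∀ v ∈ CP m, ‖(WithLp.toLp 2 v : EuclideanSpace ℝ (Fin (m + 1)))‖ ≠ 0 := by
    intro v hv h
    rw [norm_eq_zero] at h
    have h0 : v = 0 := by
      have := congrArg WithLp.ofLp h
      simpa using this
    apply ne_neg_of_mem_CP hv
    rw [h0, neg_zero]
  have hg : ∀ v ∈ CP m, g v ∈ sphere (0 : EuclideanSpace ℝ (Fin (m + 1))) 1 := by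
    intro v hv
    rw [mem_sphere_zero_iff_norm]
    simp only [g, norm_smul, norm_inv, norm_norm]
    exact inv_mul_cancel₀ (hne v hv)
  have h1 : Continuous (fun v : Fin (m + 1) → ℝ =>
      (WithLp.toLp 2 v : EuclideanSpace ℝ (Fin (m + 1)))) := by fun_prop
  have hgc : ContinuousOn g (CP m) :=
    ((h1.norm.continuousOn).inv₀ hne).smul h1.continuousOn
  have hgn : ∀ v, g (-v) = -g v := by
    intro v
    simp [g]
  obtain ⟨v, hv, h⟩ := borsuk_ulam m (fun j v => f j (g v))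
    (fun j => (hc j).comp hgc hg) (by
      intro j v hv
      rw [hgn, hodd j _ (hg v hv)])
  exact ⟨g v, hg v hv, h⟩

end Pool.Agent.Work.MP_1fb4c7_an
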