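import Pool.Agent.Work.MP_1fb4c7_an.SeqAlg

/-!
# The uniform tracial completion of a sequence algebra
-/

open scoped ComplexOrder Topology ENNReal
open Filter

set_option linter.unusedSectionVars false

namespace Pool.Agent.Work.MP_1fb4c7_an

noncomputable section

variable {B : ℕ → Type} [∀ k, CStarAlgebra (B k)] [∀ k, Nontrivial (B k)]

/-- The supremum of the seminorms of the coordinates. -/
def NN (P : NF B) (b : lp B ∞) : ℝ := ⨆ k, P.p k (b k)

lemma p_le_NN (P : NF B) (b : lp B ∞) (k : ℕ) : P.p k (b k) ≤ NN P b := by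
  refine le_ciSup (f := fun k => P.p k (b k)) ⟨‖b‖, ?_⟩ k
  rintro _ ⟨j, rfl⟩
  exact (P.le _ _).trans (norm_coe_le b j)

lemma NN_le {P : NF B} {b : lp B ∞} {C : ℝ} (h : ∀ k, P.p k (b k) ≤ C) : NN P b ≤ C :=
  ciSup_le h

lemma NN_nonneg (P : NF B) (b : lp B ∞) : 0 ≤ NN P b :=
  (P.nonneg 0 (b 0)).trans (p_le_NN P b 0)

lemma NN_add (P : NF B) (a b : lp B ∞) : NN P (a + b) ≤ NN P a + NN P b :=
  NN_le fun k => by
    rw [coe_add]
    exact (P.add _ _ _).trans (add_le_add (p_le_NN P a k) (p_le_NN P b k))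

lemma NN_sub_comm (P : NF B) (a b : lp B ∞) : NN P (a - b) = NN P (b - a) := by
  refine le_antisymm (NN_le fun k => ?_) (NN_le fun k => ?_)
  · rw [coe_sub, P.sub_comm]
    exact p_le_NN P (b - a) k
  · rw [coe_sub, P.sub_comm]
    exact p_le_NN P (a - b) k

lemma NN_tri (P : NF B) (a b c : lp B ∞) : NN P (a - c) ≤ NN P (a - b) + NN P (b - c) := by
  have := NN_add P (a - b) (b - c)
  rwa [sub_add_sub_cancel] at this

lemma NN_mul (P : NF B) (a b : lp B ∞) : NN P (a * b) ≤ ‖a‖ * NN P b :=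
  NN_le fun k => by
    rw [coe_mul]
    exact (P.mul _ _ _).trans (mul_le_mul (norm_coe_le a k) (p_le_NN P b k) (P.nonneg _ _)
      (norm_nonneg _))

lemma NN_mul' (P : NF B) (a b : lp B ∞) : NN P (a * b) ≤ NN P a * ‖b‖ :=
  NN_le fun k => by
    rw [coe_mul]
    exact (P.mul' _ _ _).trans (mul_le_mul (p_le_NN P a k) (norm_coe_le b k) (norm_nonneg _)
      (NN_nonneg _ _))

lemma NN_star (P : NF B) (a : lp B ∞) : NN P (star a) = NN P a := by
  unfold NN
  congr 1
  funext k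
  rw [coe_star, P.star]

lemma NN_le_norm (P : NF B) (a : lp B ∞) : NN P a ≤ ‖a‖ :=
  NN_le fun k => (P.le _ _).trans (norm_coe_le a k)

/-- `y` is the limit of the sequence `s` for the seminorm `NN P`. -/
def IsLim (P : NF B) (s : ℕ → Alg (normNF B)) (y : Alg P) : Prop :=
  Tendsto (fun n => NN P ((s n).1 - y.1)) atTop (𝓝 0)

variable {P : NF B}

lemma Alg_norm_le (P : NF B) {a : lp B ∞} (h : a ∈ Alg (normNF B)) : a ∈ Alg P := by
  obtain ⟨c, hc⟩ := h
  exact ⟨c, squeeze_zero (fun k => P.nonneg _ _) (fun k => P.le _ _) hc⟩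

lemma eq_zero_of_NN (hC : ∀ k, ∃ C : ℝ, ∀ b : B k, ‖b‖ ≤ C * P.p k b) {y : lp B ∞}
    (h : NN P y ≤ 0) : y = 0 := by
  ext k
  obtain ⟨C, hC⟩ := hC k
  have h1 : P.p k (y k) = 0 := le_antisymm ((p_le_NN P y k).trans h) (P.nonneg _ _)
  have h2 := hC (y k)
  rw [h1, mul_zero] at h2
  rw [coe_zero]
  exact norm_le_zero_iff.1 h2

lemma IsLim.unique (hC : ∀ k, ∃ C : ℝ, ∀ b : B k, ‖b‖ ≤ C * P.p k b)
    {s : ℕ → Alg (normNF B)} {y z : Alg P} (hy : IsLim P s y) (hz : IsLim P s z) : y = z := by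
  have h : NN P (y.1 - z.1) ≤ 0 := by
    have h1 : Tendsto (fun n => NN P ((s n).1 - y.1) + NN P ((s n).1 - z.1)) atTop (𝓝 0) := by
      simpa using Tendsto.add hy hz
    refine ge_of_tendsto' h1 fun n => ?_
    have := NN_tri P y.1 (s n).1 z.1
    rwa [NN_sub_comm P y.1 (s n).1] at this
  have := eq_zero_of_NN hC h
  exact Subtype.ext (sub_eq_zero.1 this)

lemma exists_lim (hC : ∀ k, ∃ C : ℝ, ∀ b : B k, ‖b‖ ≤ C * P.p k b)
    {s : ℕ → Alg (normNF B)} {D : ℝ} (hD : ∀ n, ‖(s n).1‖ ≤ D)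
    (hs : ∀ ε : ℝ, 0 < ε → ∃ N : ℕ, ∀ m, N ≤ m → ∀ n, N ≤ n →
      NN P ((s m).1 - (s n).1) < ε) : ∃ y : Alg P, IsLim P s y := by
  have h1 : ∀ k, ∃ y : B k, Tendsto (fun n => (s n).1 k) atTop (𝓝 y) := by
    intro k
    refine cauchySeq_tendsto_of_complete ?_
    obtain ⟨C, hC⟩ := hC k
    refine Metric.cauchySeq_iff.2 fun ε hε => ?_
    obtain ⟨N, hN⟩ := hs (ε / (|C| + 1)) (by positivity)
    refine ⟨N, fun m hm n hn => ?_⟩
    rw [dist_eq_norm]
    have h2 : P.p k ((s m).1 k - (s n).1 k) < ε / (|C| + 1) :=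
      (p_le_NN P ((s m).1 - (s n).1) k).trans_lt (hN m hm n hn)
    have h3 : ‖(s m).1 k - (s n).1 k‖ ≤ |C| * P.p k ((s m).1 k - (s n).1 k) :=
      (hC _).trans (mul_le_mul_of_nonneg_right (le_abs_self _) (P.nonneg _ _))
    have h4 : |C| * P.p k ((s m).1 k - (s n).1 k) ≤ |C| * (ε / (|C| + 1)) :=
      mul_le_mul_of_nonneg_left h2.le (abs_nonneg _)
    have h5 : |C| * (ε / (|C| + 1)) < ε := by
      rw [mul_div_assoc', div_lt_iff₀ (by positivity)]
      nlinarith [abs_nonneg C]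
    linarith
  choose y hy using h1
  have hyD : ∀ k, ‖y k‖ ≤ D := fun k =>
    le_of_tendsto' (hy k).norm fun n => (norm_coe_le _ k).trans (hD n)
  have h2 : ∀ ε : ℝ, 0 < ε → ∃ N : ℕ, ∀ n, N ≤ n → ∀ k,
      P.p k ((s n).1 k - y k) ≤ ε := by
    intro ε hε
    obtain ⟨N, hN⟩ := hs ε hε
    refine ⟨N, fun n hn k => ?_⟩
    have h3 : Tendsto (fun m => ε + ‖(s m).1 k - y k‖) atTop (𝓝 (ε + 0)) :=
      tendsto_const_nhds.add (tendsto_iff_norm_sub_tendsto_zero.1 (hy k))
    rw [add_zero] at h3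
    refine ge_of_tendsto h3 ?_
    filter_upwards [eventually_ge_atTop N] with m hm
    refine (P.tri k _ ((s m).1 k) _).trans (add_le_add ?_ (P.le _ _))
    exact (p_le_NN P ((s n).1 - (s m).1) k).trans (hN n hn m hm).le
  have h3 : mkBdd y D hyD ∈ Alg P := by
    refine mem_of_approx P _ fun ε hε => ?_
    obtain ⟨N, hN⟩ := h2 ε hε
    refine ⟨(s N).1, Alg_norm_le P (s N).2, fun k => ?_⟩
    rw [P.sub_comm]
    exact hN N le_rfl k
  refine ⟨⟨mkBdd y D hyD, h3⟩, ?_⟩
  rw [IsLim, Metric.tendsto_atTop]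
  intro ε hε
  obtain ⟨N, hN⟩ := h2 (ε / 2) (half_pos hε)
  refine ⟨N, fun n hn => ?_⟩
  rw [Real.dist_eq, sub_zero, abs_of_nonneg (NN_nonneg _ _)]
  have : NN P ((s n).1 - mkBdd y D hyD) ≤ ε / 2 := NN_le fun k => hN n hn k
  linarith

open Classical in
/-- The limit map. -/
def qmap (P : NF B) (s : ℕ → Alg (normNF B)) : Alg P :=
  if h : ∃ y, IsLim P s y then h.choose else 0

lemma qmap_eq (hC : ∀ k, ∃ C : ℝ, ∀ b : B k, ‖b‖ ≤ C * P.p k b)
    {s : ℕ → Alg (normNF B)} {y : Alg P} (h : IsLim P s y) : qmap P s = y := by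
  have h' : ∃ y, IsLim P s y := ⟨y, h⟩
  unfold qmap
  rw [dif_pos h']
  exact IsLim.unique hC h'.choose_spec h

/-- The truncation of `y`, equal to the scalar `c` from the coordinate `n` on. -/
def trunc (y : lp B ∞) (c : ℂ) (n : ℕ) : lp B ∞ :=
  mkBdd (fun k => if k < n then y k else algebraMap ℂ (B k) c) (max ‖y‖ ‖c‖) (by
    intro k
    split_ifs with h
    · exact (norm_coe_le y k).trans (le_max_left _ _)
    · rw [norm_algebraMap, CStarRing.norm_one, mul_one]
      exact le_max_right _ _)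

lemma trunc_mem (y : lp B ∞) (c : ℂ) (n : ℕ) : trunc y c n ∈ Alg (normNF B) := by
  refine ⟨c, ?_⟩
  refine tendsto_const_nhds.congr' ?_
  filter_upwards [eventually_ge_atTop n] with k hk
  simp only [trunc, mkBdd_apply, if_neg (not_lt.2 hk), sub_self, NF.zero]

lemma norm_trunc_le (y : lp B ∞) (c : ℂ) (n : ℕ) : ‖trunc y c n‖ ≤ max ‖y‖ ‖c‖ := by
  rw [norm_le_iff (le_max_of_le_left (norm_nonneg _))]
  intro k
  simp only [trunc, mkBdd_apply]
  split_ifs with h
  · exact (norm_coe_le y k).trans (le_max_left _ _)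
  · rw [norm_algebraMap, CStarRing.norm_one, mul_one]
    exact le_max_right _ _

/-- The sequence of truncations. -/
def truncSeq (y : lp B ∞) (c : ℂ) (n : ℕ) : Alg (normNF B) := ⟨trunc y c n, trunc_mem y c n⟩

lemma isLim_truncSeq (y : Alg P) (c : ℂ)
    (hc : Tendsto (fun k => P.p k (y.1 k - algebraMap ℂ (B k) c)) atTop (𝓝 0)) :
    IsLim P (truncSeq y.1 c) y := by
  rw [IsLim, Metric.tendsto_atTop]
  intro ε hε
  obtain ⟨K, hK⟩ := (Metric.tendsto_atTop.1 hc) (ε / 2) (half_pos hε)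
  refine ⟨K, fun n hn => ?_⟩
  rw [Real.dist_eq, sub_zero, abs_of_nonneg (NN_nonneg _ _)]
  have : NN P ((truncSeq y.1 c n).1 - y.1) ≤ ε / 2 := by
    refine NN_le fun k => ?_
    rw [coe_sub]
    simp only [truncSeq, trunc, mkBdd_apply]
    split_ifs with h
    · rw [sub_self, P.zero]; exact (half_pos hε).le
    · have h1 := hK k (hn.trans (not_lt.1 h))
      rw [Real.dist_eq, sub_zero, abs_of_nonneg (P.nonneg _ _)] at h1
      rw [P.sub_comm]
      exact h1.le
  linarith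

variable (P) in
/-- The hypothesis on norms. -/
def Good : Prop :=
  (∀ k, ∃ C : ℝ, ∀ b : B k, ‖b‖ ≤ C * P.p k b) ∧
    ∀ a : Alg (normNF B), norm2 a = NN P a.1

lemma Good.exists_lim (hP : Good P) {s : ℕ → Alg (normNF B)} (hs : s ∈ BddCauchy (Alg (normNF B))) :
    ∃ y : Alg P, IsLim P s y := by
  obtain ⟨⟨D, hD⟩, hs2⟩ := hs
  refine Pool.Agent.Work.MP_1fb4c7_an.exists_lim hP.1 (D := D) hD fun ε hε => ?_
  obtain ⟨N, hN⟩ := hs2 ε hε
  refine ⟨N, fun m hm n hn => ?_⟩
  have := hN m hm n hn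
  rw [hP.2] at this
  exact this

lemma Good.isLim (hP : Good P) {s : ℕ → Alg (normNF B)} (hs : s ∈ BddCauchy (Alg (normNF B))) :
    IsLim P s (qmap P s) := by
  obtain ⟨y, hy⟩ := hP.exists_lim hs
  rw [qmap_eq hP.1 hy]
  exact hy

/-- A bounded sequence which has a limit for the seminorm is a bounded Cauchy sequence. -/
lemma Good.mem_of_isLim (hP : Good P) {s : ℕ → Alg (normNF B)} {y : Alg P} {D : ℝ}
    (hD : ∀ n, ‖(s n).1‖ ≤ D) (h : IsLim P s y) : s ∈ BddCauchy (Alg (normNF B)) := by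
  refine ⟨⟨D, hD⟩, fun ε hε => ?_⟩
  obtain ⟨N, hN⟩ := (Metric.tendsto_atTop.1 h) (ε / 2) (half_pos hε)
  refine ⟨N, fun m hm n hn => ?_⟩
  rw [hP.2]
  have h1 := hN m hm
  have h2 := hN n hn
  rw [Real.dist_eq, sub_zero, abs_of_nonneg (NN_nonneg _ _)] at h1 h2
  have h3 := NN_tri P (s m).1 y.1 (s n).1
  rw [NN_sub_comm P y.1 (s n).1] at h3
  have h4 : ((s m - s n : Alg (normNF B)) : lp B ∞) = (s m).1 - (s n).1 := rfl
  rw [h4]
  linarith

lemma Good.truncSeq_mem (hP : Good P) (y : Alg P) (c : ℂ)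
    (hc : Tendsto (fun k => P.p k (y.1 k - algebraMap ℂ (B k) c)) atTop (𝓝 0)) :
    truncSeq y.1 c ∈ BddCauchy (Alg (normNF B)) :=
  hP.mem_of_isLim (fun n => norm_trunc_le y.1 c n) (isLim_truncSeq y c hc)

/-- If `s` tends to `y` then the uniform 2-seminorms of `s n` tend to that of `y`. -/
lemma Good.tendsto_norm2 (hP : Good P) {s : ℕ → Alg (normNF B)} {y : Alg P} (h : IsLim P s y) :
    Tendsto (fun n => norm2 (s n)) atTop (𝓝 (NN P y.1)) := by
  rw [tendsto_iff_dist_tendsto_zero]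
  refine squeeze_zero (fun n => dist_nonneg) (fun n => ?_) h
  rw [hP.2, Real.dist_eq, abs_le]
  constructor
  · have := NN_add P (y.1 - (s n).1) (s n).1
    rw [sub_add_cancel, NN_sub_comm] at this
    linarith
  · have := NN_add P ((s n).1 - y.1) y.1
    rw [sub_add_cancel] at this
    linarith

theorem Good.isUniformTracialCompletion (hP : Good P) :
    IsUniformTracialCompletion (qmap P) where
  map_add := by
    intro s hs t ht
    refine qmap_eq hP.1 ?_
    have h : Tendsto (fun n => NN P ((s n).1 - (qmap P s).1) + NN P ((t n).1 - (qmap P t).1))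
        atTop (𝓝 0) := by
      simpa using Tendsto.add (hP.isLim hs) (hP.isLim ht)
    refine squeeze_zero (fun n => NN_nonneg _ _) (fun n => ?_) h
    have e : (((s + t) n : Alg (normNF B)) : lp B ∞) -
        ((qmap P s + qmap P t : Alg P) : lp B ∞) =
        ((s n).1 - (qmap P s).1) + ((t n).1 - (qmap P t).1) := by
      have e1 : (((s + t) n : Alg (normNF B)) : lp B ∞) = (s n).1 + (t n).1 := rfl
      have e2 : ((qmap P s + qmap P t : Alg P) : lp B ∞) = (qmap P s).1 + (qmap P t).1 := rfl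
      rw [e1, e2]; abel
    rw [e]
    exact NN_add P _ _
  map_mul := by
    intro s hs t ht
    refine qmap_eq hP.1 ?_
    obtain ⟨D, hD⟩ := hs.1
    have h : Tendsto (fun n => D * NN P ((t n).1 - (qmap P t).1) +
        NN P ((s n).1 - (qmap P s).1) * ‖(qmap P t).1‖) atTop (𝓝 0) := by
      simpa using ((hP.isLim ht).const_mul D).add ((hP.isLim hs).mul_const ‖(qmap P t).1‖)
    refine squeeze_zero (fun n => NN_nonneg _ _) (fun n => ?_) h
    have e : (((s * t) n : Alg (normNF B)) : lp B ∞) -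
        ((qmap P s * qmap P t : Alg P) : lp B ∞) =
        (s n).1 * ((t n).1 - (qmap P t).1) + ((s n).1 - (qmap P s).1) * (qmap P t).1 := by
      have e1 : (((s * t) n : Alg (normNF B)) : lp B ∞) = (s n).1 * (t n).1 := rfl
      have e2 : ((qmap P s * qmap P t : Alg P) : lp B ∞) = (qmap P s).1 * (qmap P t).1 := rfl
      rw [e1, e2]; noncomm_ring
    rw [e]
    refine (NN_add P _ _).trans (add_le_add ?_ (NN_mul' P _ _))
    exact (NN_mul P _ _).trans (mul_le_mul_of_nonneg_right (hD n) (NN_nonneg _ _))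
  map_smul := by
    intro c s hs
    refine qmap_eq hP.1 ?_
    have h : Tendsto (fun n => ‖algebraMap ℂ (lp B ∞) c‖ * NN P ((s n).1 - (qmap P s).1))
        atTop (𝓝 0) := by
      simpa using (hP.isLim hs).const_mul ‖algebraMap ℂ (lp B ∞) c‖
    refine squeeze_zero (fun n => NN_nonneg _ _) (fun n => ?_) h
    have e : (((c • s) n : Alg (normNF B)) : lp B ∞) - ((c • qmap P s : Alg P) : lp B ∞) =
        algebraMap ℂ (lp B ∞) c * ((s n).1 - (qmap P s).1) := by
      have e1 : (((c • s) n : Alg (normNF B)) : lp B ∞) = c • (s n).1 := rfl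
      have e2 : ((c • qmap P s : Alg P) : lp B ∞) = c • (qmap P s).1 := rfl
      rw [e1, e2, ← smul_sub, Algebra.smul_def]
    rw [e]
    exact NN_mul P _ _
  map_star := by
    intro s hs
    refine qmap_eq hP.1 ?_
    refine (hP.isLim hs).congr fun n => ?_
    have e : (((star s) n : Alg (normNF B)) : lp B ∞) - ((star (qmap P s) : Alg P) : lp B ∞) =
        star ((s n).1 - (qmap P s).1) := by
      have e1 : (((star s) n : Alg (normNF B)) : lp B ∞) = star (s n).1 := rfl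
      have e2 : ((star (qmap P s) : Alg P) : lp B ∞) = star (qmap P s).1 := rfl
      rw [e1, e2, star_sub]
    rw [e, NN_star]
  surj := by
    intro x
    obtain ⟨c, hc⟩ := mem_Alg.1 x.2
    exact ⟨truncSeq x.1 c, hP.truncSeq_mem x c hc, qmap_eq hP.1 (isLim_truncSeq x c hc)⟩
  ker := by
    intro s hs
    have h1 := hP.tendsto_norm2 (hP.isLim hs)
    constructor
    · intro h
      rw [h] at h1
      have : NN P ((0 : Alg P) : lp B ∞) = 0 := by
        refine le_antisymm (NN_le fun k => ?_) (NN_nonneg _ _)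
        have : ((0 : Alg P) : lp B ∞) k = 0 := rfl
        rw [this, P.zero]
      rwa [this] at h1
    · intro h
      have h2 := tendsto_nhds_unique h1 h
      exact Subtype.ext (eq_zero_of_NN hP.1 h2.le)

end

end Pool.Agent.Work.MP_1fb4c7_an
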