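import Pool.Agent.Work.MP_1fb4c7_an.NormFormula

/-!
# Characters of the completion which live at infinity
-/

open scoped ComplexOrder Topology ENNReal
open Filter

set_option linter.unusedSectionVars false

namespace Pool.Agent.Work.MP_1fb4c7_an

noncomputable section

variable {B : ℕ → Type} [∀ k, CStarAlgebra (B k)] [∀ k, Nontrivial (B k)]

/-- States of `B k` which are multiplicative on a given set of at most `k` elements. -/
def HasStates (e : ∀ k, B k) : Prop :=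
  ∀ k (G : Finset (B k)), G.card ≤ k → ∃ φ : B k →L[ℂ] ℂ, ‖φ‖ ≤ 1 ∧ φ 1 = 1 ∧
    (∀ a, 0 ≤ φ (star a * a)) ∧ φ (e k) = 1 ∧ ∀ a ∈ G, ∀ b ∈ G, φ (a * b) = φ a * φ b

/-- The tail of the sequence `e`. -/
def tail (e : ∀ k, B k) (he : ∀ k, ‖e k‖ ≤ 1) (j : ℕ) : lp B ∞ :=
  mkBdd (fun k => if k < j then 0 else e k) 1 (by
    intro k
    split_ifs
    · simp
    · exact he k)

lemma tail_mem (P : NF B) (e : ∀ k, B k) (he : ∀ k, ‖e k‖ ≤ 1)
    (h0 : Tendsto (fun k => P.p k (e k)) atTop (𝓝 0)) (j : ℕ) : tail e he j ∈ Alg P := by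
  refine ⟨0, squeeze_zero (fun k => P.nonneg _ _) (fun k => ?_) h0⟩
  rw [map_zero, sub_zero]
  simp only [tail, mkBdd_apply]
  split_ifs
  · rw [P.zero]; exact P.nonneg _ _
  · exact le_rfl

theorem exists_character (P : NF B) (e : ∀ k, B k) (he : ∀ k, ‖e k‖ ≤ 1)
    (h0 : Tendsto (fun k => P.p k (e k)) atTop (𝓝 0)) (hS : HasStates e) :
    ∃ τ : Alg P →L[ℂ] ℂ, IsTrace τ ∧ (∀ a b, τ (a * b) = τ a * τ b) ∧
      ∀ j, τ ⟨tail e he j, tail_mem P e he h0 j⟩ = 1 := by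
  classical
  have h1 : ∀ i : Finset (Alg P) × ℕ, ∃ k, i.2 ≤ k ∧ ∃ φ : B k →L[ℂ] ℂ, ‖φ‖ ≤ 1 ∧ φ 1 = 1 ∧
      (∀ a, 0 ≤ φ (star a * a)) ∧ φ (e k) = 1 ∧
      ∀ a ∈ i.1, ∀ b ∈ i.1, φ (a.1 k * b.1 k) = φ (a.1 k) * φ (b.1 k) := by
    rintro ⟨F, K⟩
    refine ⟨max K F.card, le_max_left _ _, ?_⟩
    obtain ⟨φ, p1, p2, p3, p4, p5⟩ := hS (max K F.card)
      (F.image fun a : Alg P => a.1 (max K F.card))
      (Finset.card_image_le.trans (le_max_right _ _))
    refine ⟨φ, p1, p2, p3, p4, fun a ha b hb => p5 _ ?_ _ ?_⟩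
    · exact Finset.mem_image_of_mem (fun a : Alg P => a.1 (max K F.card)) ha
    · exact Finset.mem_image_of_mem (fun a : Alg P => a.1 (max K F.card)) hb
  choose k hk φ hφ1 hφ2 hφ3 hφ4 hφ5 using h1
  let Ψ : Finset (Alg P) × ℕ → WeakDual ℂ (Alg P) := fun i =>
    StrongDual.toWeakDual ((φ i).comp (evL P (k i)))
  have hΨ : ∀ i a, Ψ i a = φ i (a.1 (k i)) := fun i a => rfl
  have hK : Filter.map Ψ atTop ≤
      𝓟 (WeakDual.toStrongDual ⁻¹' Metric.closedBall (0 : StrongDual ℂ (Alg P)) 1) := by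
    rw [le_principal_iff, mem_map]
    refine Filter.univ_mem' fun i => ?_
    rw [Set.mem_preimage, Set.mem_preimage, mem_closedBall_zero_iff]
    change ‖(φ i).comp (evL P (k i))‖ ≤ 1
    refine ContinuousLinearMap.opNorm_le_bound _ zero_le_one fun x => ?_
    rw [ContinuousLinearMap.comp_apply, evL_apply]
    refine ((φ i).le_opNorm _).trans ?_
    exact mul_le_mul (hφ1 i) (norm_coe_le x.1 _) (norm_nonneg _) zero_le_one
  obtain ⟨χ, hχ1, hχ⟩ := (WeakDual.isCompact_closedBall (0 : StrongDual ℂ (Alg P)) 1) hK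
  have key : ∀ S : Set (WeakDual ℂ (Alg P)), IsClosed S → (∀ᶠ i in atTop, Ψ i ∈ S) → χ ∈ S := by
    intro S hS1 hS2
    exact isClosed_iff_clusterPt.1 hS1 χ (hχ.mono (le_principal_iff.2 hS2))
  have c1 : χ 1 = 1 := by
    refine key {χ | χ 1 = 1} (isClosed_eq (WeakDual.eval_continuous _) continuous_const) ?_
    exact Filter.Eventually.of_forall fun i => hφ2 i
  have c2 : ∀ a, 0 ≤ χ (star a * a) := by
    intro a
    refine key {χ | 0 ≤ χ (star a * a)}
      (isClosed_le continuous_const (WeakDual.eval_continuous _)) ?_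
    exact Filter.Eventually.of_forall fun i => hφ3 i (a.1 (k i))
  have c3 : ∀ a b, χ (a * b) = χ a * χ b := by
    intro a b
    refine key {χ | χ (a * b) = χ a * χ b}
      (isClosed_eq (WeakDual.eval_continuous _)
        ((WeakDual.eval_continuous _).mul (WeakDual.eval_continuous _))) ?_
    filter_upwards [eventually_ge_atTop (({a, b} : Finset (Alg P)), 0)] with i hi
    have ha : a ∈ i.1 := hi.1 (by simp)
    have hb : b ∈ i.1 := hi.1 (by simp)
    exact hφ5 i a ha b hb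
  have c4 : ∀ j, χ ⟨tail e he j, tail_mem P e he h0 j⟩ = 1 := by
    intro j
    refine key {χ | χ ⟨tail e he j, tail_mem P e he h0 j⟩ = 1}
      (isClosed_eq (WeakDual.eval_continuous _) continuous_const) ?_
    filter_upwards [eventually_ge_atTop ((∅ : Finset (Alg P)), j)] with i hi
    have h2 : j ≤ k i := le_trans hi.2 (hk i)
    have h3 : (tail e he j) (k i) = e (k i) := by
      simp only [tail, mkBdd_apply, if_neg (not_lt.2 h2)]
    change φ i (tail e he j (k i)) = 1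
    rw [h3]
    exact hφ4 i
  refine ⟨WeakDual.toStrongDual χ, ?_, c3, c4⟩
  rw [isTrace_iff]
  refine ⟨?_, c1, c2, ?_⟩
  · rw [Set.mem_preimage, mem_closedBall_zero_iff] at hχ1
    exact hχ1
  · intro a b
    change χ (a * b) = χ (b * a)
    rw [c3, c3, mul_comm]

theorem not_twoContinuous {P : NF B} (hP : Good P) (e : ∀ k, B k) (he : ∀ k, ‖e k‖ ≤ 1)
    (h0 : Tendsto (fun k => P.p k (e k)) atTop (𝓝 0)) (τ : Alg P →L[ℂ] ℂ)
    (hτ : ∀ j, τ ⟨tail e he j, tail_mem P e he h0 j⟩ = 1) :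
    ¬ IsTwoContinuous (qmap P) τ := by
  intro h
  obtain ⟨δ, hδ, h⟩ := h 1 one_pos
  obtain ⟨j, hj⟩ := (Metric.tendsto_atTop.1 h0) (δ / 2) (half_pos hδ)
  set x : Alg P := ⟨tail e he j, tail_mem P e he h0 j⟩ with hx
  have h1 : Tendsto (fun k => P.p k (x.1 k - algebraMap ℂ (B k) 0)) atTop (𝓝 0) := by
    refine squeeze_zero (fun k => P.nonneg _ _) (fun k => ?_) h0
    rw [map_zero, sub_zero]
    simp only [hx, tail, mkBdd_apply]
    split_ifs
    · rw [P.zero]; exact P.nonneg _ _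
    · exact le_rfl
  have h2 : NN P x.1 ≤ δ / 2 := by
    refine NN_le fun k => ?_
    simp only [hx, tail, mkBdd_apply]
    split_ifs with hk
    · rw [P.zero]; exact (half_pos hδ).le
    · have := hj k (not_lt.1 hk)
      rw [Real.dist_eq, sub_zero, abs_of_nonneg (P.nonneg _ _)] at this
      exact this.le
  have h3 := isLim_truncSeq x 0 h1
  have h4 := h (truncSeq x.1 0) (hP.truncSeq_mem x 0 h1) (NN P x.1) (hP.tendsto_norm2 h3)
    (by linarith)
  rw [qmap_eq hP.1 h3, hτ j, norm_one] at h4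
  exact lt_irrefl _ h4

end

end Pool.Agent.Work.MP_1fb4c7_an
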