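import Pool.Agent.Work.MP_1fb4c7_an.Equi
import Pool.Agent.Work.MP_1fb4c7_an.Exotic
import Pool.Agent.Work.MP_1fb4c7_an.BorsukUlam

/-!
# The counterexample to the trace problem
-/

open scoped ComplexOrder Topology Matrix.Norms.L2Operator ENNReal
open Filter

set_option linter.unusedSectionVars false

namespace Pool.Agent.Work.MP_1fb4c7_an

noncomputable section

section gen

variable {X : Type} [TopologicalSpace X] [CompactSpace X] [Nonempty X] {m : ℕ} {ν : X → X}

/-- The uniform 2-norm on the algebra of equivariant functions. -/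
def pp (b : Eqv ν m) : ℝ := ⨆ x : X, hs (evX x b)

lemma hs_le_pp (b : Eqv ν m) (x : X) : hs (evX x b) ≤ pp b := by
  refine le_ciSup (f := fun x : X => hs (evX x b)) ⟨‖b‖, ?_⟩ x
  rintro _ ⟨y, rfl⟩
  exact (hs_le _).trans (norm_evX_le y b)

lemma pp_le {b : Eqv ν m} {C : ℝ} (h : ∀ x, hs (evX x b) ≤ C) : pp b ≤ C := ciSup_le h

lemma pp_nonneg (b : Eqv ν m) : 0 ≤ pp b := by
  obtain ⟨x⟩ := (inferInstance : Nonempty X)
  exact (hs_nonneg _).trans (hs_le_pp b x)

lemma exists_pp (b : Eqv ν m) : ∃ x, pp b ≤ hs (evX x b) := by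
  have hc : Continuous fun x : X => hs (evX x b) := continuous_hs.comp b.1.continuous
  obtain ⟨x, -, hx⟩ := (isCompact_univ (X := X)).exists_isMaxOn Set.univ_nonempty hc.continuousOn
  exact ⟨x, pp_le fun y => hx (Set.mem_univ y)⟩

lemma pp_add (a b : Eqv ν m) : pp (a + b) ≤ pp a + pp b :=
  pp_le fun x => by
    rw [map_add]
    exact (hs_add _ _).trans (add_le_add (hs_le_pp a x) (hs_le_pp b x))

lemma pp_neg (a : Eqv ν m) : pp (-a) = pp a := by
  unfold pp
  congr 1
  funext x
  rw [map_neg, hs_neg]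

lemma pp_star (a : Eqv ν m) : pp (star a) = pp a := by
  unfold pp
  congr 1
  funext x
  rw [evX_star, hs_star]

lemma pp_mul (a b : Eqv ν m) : pp (a * b) ≤ ‖a‖ * pp b :=
  pp_le fun x => by
    rw [evX_mul]
    exact (hs_mul _ _).trans (mul_le_mul (norm_evX_le x a) (hs_le_pp b x) (hs_nonneg _)
      (norm_nonneg _))

lemma pp_le_norm (a : Eqv ν m) : pp a ≤ ‖a‖ :=
  pp_le fun x => (hs_le _).trans (norm_evX_le x a)

lemma pp_scalar (c : ℂ) : pp (algebraMap ℂ (Eqv ν m) c) = ‖c‖ := by
  have h : ∀ x : X, evX x (algebraMap ℂ (Eqv ν m) c) = algebraMap ℂ (Mt m) c := fun x => rfl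
  unfold pp
  simp only [h, hs_scalar]
  exact ciSup_const

lemma norm_le_pp (b : Eqv ν m) : ‖b‖ ≤ ((m + 1) ^ 2 * Real.sqrt (m + 1)) * pp b := by
  refine norm_eqv_le (mul_nonneg (by positivity) (pp_nonneg b)) fun x => ?_
  exact (norm_le_hs _).trans (mul_le_mul_of_nonneg_left (hs_le_pp b x) (by positivity))

/-- The trace at a point. -/
def trL (x : X) : Eqv ν m →L[ℂ] ℂ :=
  LinearMap.mkContinuous
    { toFun := fun b => ntr (evX x b)
      map_add' := fun a b => by rw [map_add, ntr_add]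
      map_smul' := fun c b => by rw [map_smul, ntr_smul]; rfl } 1 (by
    intro b
    rw [one_mul]
    exact (ntr_le _).trans (norm_evX_le x b))

lemma trL_apply (x : X) (b : Eqv ν m) : trL x b = ntr (evX x b) := rfl

lemma isTrace_trL (x : X) : IsTrace (trL x : Eqv ν m →L[ℂ] ℂ) := by
  rw [isTrace_iff]
  refine ⟨LinearMap.mkContinuous_norm_le _ zero_le_one _, ?_, ?_, ?_⟩
  · rw [trL_apply, evX_one, ntr_one]
  · intro a
    rw [trL_apply, evX_mul, evX_star, ntr_star_mul, Complex.zero_le_real]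
    exact sq_nonneg _
  · intro a b
    rw [trL_apply, trL_apply, evX_mul, evX_mul, ntr_comm]

lemma norm_EE_star_mul (b : Eqv ν m) : ‖EE (star b * b)‖ ≤ pp b ^ 2 := by
  refine norm_eqv_le (sq_nonneg _) fun x => ?_
  rw [evX_EE, norm_smul, CStarRing.norm_one, mul_one, evX_mul, evX_star, ntr_star_mul,
    Complex.norm_real, Real.norm_of_nonneg (sq_nonneg _)]
  exact pow_le_pow_left₀ (hs_nonneg _) (hs_le_pp b x) 2

/-- The corner state at a point. -/
def stL (x : X) : Eqv ν m →L[ℂ] ℂ :=
  LinearMap.mkContinuous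
    { toFun := fun b => evX x b 0 0
      map_add' := fun a b => by rw [map_add]; rfl
      map_smul' := fun c b => by rw [map_smul]; rfl } 1 (by
    intro b
    rw [one_mul]
    exact (entry_le_norm _ _ _).trans (norm_evX_le x b))

lemma stL_apply (x : X) (b : Eqv ν m) : stL x b = evX x b 0 0 := rfl

/-- The constant rank one projection. -/
def e00 (ν : X → X) (m : ℕ) : Eqv ν m := el ν 1 0 0 (by
  intro x
  rw [sg_mul_self]
  simp)

lemma evX_e00 (x : X) : evX x (e00 ν m) = Matrix.single 0 0 1 := rfl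

lemma norm_e00_le : ‖e00 ν m‖ ≤ 1 :=
  norm_eqv_le zero_le_one fun x => by
    rw [evX_e00]
    exact norm_single_le 0 0

lemma pp_e00 : pp (e00 ν m) = 1 / Real.sqrt (m + 1) := by
  unfold pp
  simp only [evX_e00, hs_single]
  exact ciSup_const

end gen

/-- The space `X_k`, a sphere of dimension `2 k^2`. -/
abbrev XX (k : ℕ) := ↥(CP (2 * k * k))

instance (k : ℕ) : CompactSpace (XX k) := isCompact_iff_compactSpace.1 (isCompact_CP _)

instance (k : ℕ) : Nonempty (XX k) :=
  ⟨⟨_, face_subset (s := fun _ => 1) (fun _ => Or.inl rfl)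
    (vert_mem (s := fun _ => 1) (fun _ => Or.inl rfl) (k := 0) (by omega))⟩⟩

/-- The antipodal map. -/
def nu (k : ℕ) : XX k → XX k := fun x => ⟨-x.1, neg_mem_CP x.2⟩

/-- The algebras `B_k`. -/
abbrev BB (k : ℕ) : Type := ↥(Eqv (nu k) k)

lemma sumsq_pos {k : ℕ} (x : XX k) : 0 < ∑ j, x.1 j ^ 2 := by
  have hx : ∑ j, |x.1 j| = 1 := x.2
  refine Finset.sum_pos' (fun j _ => sq_nonneg _) ?_
  by_contra hcon
  push Not at hcon
  have h0 : ∀ j, x.1 j = 0 := by
    intro j
    have := hcon j (Finset.mem_univ j)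
    nlinarith [sq_nonneg (x.1 j)]
  simp [h0] at hx

/-- The odd functions `x_l / |x|`. -/
def oddUnit (k : ℕ) : OddUnit (nu k) (2 * k * k + 1) where
  u := fun l => ⟨fun x => x.1 l / Real.sqrt (∑ j, x.1 j ^ 2), by
    refine Continuous.div ?_ ?_ ?_
    · exact (continuous_apply l).comp continuous_subtype_val
    · refine Real.continuous_sqrt.comp ?_
      refine continuous_finsetSum _ fun j _ => ?_
      exact ((continuous_apply j).comp continuous_subtype_val).pow 2
    · intro x
      exact (Real.sqrt_pos.2 (sumsq_pos x)).ne'⟩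
  odd := by
    intro l x
    change (-x.1) l / Real.sqrt (∑ j, (-x.1) j ^ 2) = -(x.1 l / Real.sqrt (∑ j, x.1 j ^ 2))
    simp only [Pi.neg_apply, neg_sq]
    rw [neg_div]
  sum := by
    intro x
    change ∑ l, (x.1 l / Real.sqrt (∑ j, x.1 j ^ 2)) ^ 2 = 1
    simp only [div_pow]
    rw [← Finset.sum_div, Real.sq_sqrt (sumsq_pos x).le]
    exact div_self (sumsq_pos x).ne'

/-- The family of 2-norms. -/
def PP : NF BB where
  p := fun _ b => pp b
  nonneg := fun _ b => pp_nonneg b
  add := fun _ a b => pp_add a b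
  neg := fun _ a => pp_neg a
  star := fun _ a => pp_star a
  mul := fun _ a b => pp_mul a b
  le := fun _ a => pp_le_norm a
  scalar := fun _ c => pp_scalar c

lemma hasExp_PP : HasExp PP where
  ex := fun k => ⟨EE, norm_EE_le, EE_one, fun τ hτ b => trace_EE (oddUnit k) τ hτ b,
    norm_EE_star_mul⟩
  attained := by
    intro _ b
    obtain ⟨x, hx⟩ := exists_pp b
    refine ⟨trL x, isTrace_trL x, ?_⟩
    rw [trL_apply, evX_mul, evX_star, ntr_star_mul, Complex.ofReal_re]
    exact pow_le_pow_left₀ (pp_nonneg b) hx 2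

lemma good_PP : Good PP :=
  hasExp_PP.good fun k => ⟨_, fun b => norm_le_pp b⟩

lemma exists_zero (k : ℕ) (g : Fin k → BB k) :
    ∃ x : XX k, ∀ l, ∀ j : Fin (k + 1), j ≠ 0 → evX x (g l) j 0 = 0 := by
  classical
  -- the functions
  let F : Fin 2 × Fin k × Fin k → XX k → ℝ := fun t x =>
    if t.1 = 0 then (evX x (g t.2.1) t.2.2.succ 0).re else (evX x (g t.2.1) t.2.2.succ 0).im
  have hFc : ∀ t, Continuous (F t) := by
    intro t
    have h1 : Continuous fun x : XX k => evX x (g t.2.1) t.2.2.succ 0 :=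
      (ent (g t.2.1) t.2.2.succ 0).continuous
    by_cases ht : t.1 = 0
    · simp only [F, ht, if_true]
      exact Complex.continuous_re.comp h1
    · simp only [F, ht, if_false]
      exact Complex.continuous_im.comp h1
  have hsg : ∀ j : Fin k, (sg j.succ : ℂ) * sg (0 : Fin (k + 1)) = -1 := by
    intro j
    simp [sg, Fin.succ_ne_zero]
  have hFo : ∀ t x, F t (nu k x) = - F t x := by
    intro t x
    have h1 : evX (nu k x) (g t.2.1) t.2.2.succ 0 = - evX x (g t.2.1) t.2.2.succ 0 := by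
      have h2 := (g t.2.1).2 x t.2.2.succ 0
      rw [hsg, neg_one_mul] at h2
      exact h2
    by_cases ht : t.1 = 0
    · simp only [F, ht, if_true]
      rw [h1, Complex.neg_re]
    · simp only [F, ht, if_false]
      rw [h1, Complex.neg_im]
  have hcard : Fintype.card (Fin 2 × Fin k × Fin k) = 2 * k * k := by
    simp [Fintype.card_prod, mul_assoc]
  let eqv : Fin 2 × Fin k × Fin k ≃ Fin (2 * k * k) := Fintype.equivFinOfCardEq hcard
  let f : Fin (2 * k * k) → (Fin (2 * k * k + 1) → ℝ) → ℝ := fun j v =>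
    if h : v ∈ CP (2 * k * k) then F (eqv.symm j) ⟨v, h⟩ else 0
  have hf : ∀ j (x : XX k), f j x.1 = F (eqv.symm j) x := by
    intro j x
    simp only [f]
    rw [dif_pos x.2]
  obtain ⟨v, hv, hv0⟩ := borsuk_ulam (2 * k * k) f (by
    intro j
    rw [continuousOn_iff_continuous_domRestrict]
    refine (hFc (eqv.symm j)).congr fun x => ?_
    exact (hf j x).symm) (by
    intro j v hv
    have h1 := hf j (nu k ⟨v, hv⟩)
    have h2 := hf j ⟨v, hv⟩
    have h3 : (nu k ⟨v, hv⟩).1 = -v := rfl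
    rw [h3] at h1
    rw [h1, h2]
    exact hFo _ _)
  refine ⟨⟨v, hv⟩, fun l j hj => ?_⟩
  obtain ⟨i, rfl⟩ := Fin.exists_succ_eq.2 hj
  have h1 : F (0, l, i) ⟨v, hv⟩ = 0 := by
    have := hv0 (eqv (0, l, i))
    rw [show v = (⟨v, hv⟩ : XX k).1 from rfl, hf, Equiv.symm_apply_apply] at this
    exact this
  have h2 : F (1, l, i) ⟨v, hv⟩ = 0 := by
    have := hv0 (eqv (1, l, i))
    rw [show v = (⟨v, hv⟩ : XX k).1 from rfl, hf, Equiv.symm_apply_apply] at this
    exact this
  apply Complex.ext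
  · simpa [F] using h1
  · simpa [F] using h2

lemma hasStates : HasStates (fun k => e00 (nu k) k) := by
  classical
  intro k G hG
  obtain ⟨x, hx⟩ := exists_zero k fun l => G.toList.getD l 0
  refine ⟨stL x, LinearMap.mkContinuous_norm_le _ zero_le_one _, ?_, ?_, ?_, ?_⟩
  · rw [stL_apply, evX_one, Matrix.one_apply_eq]
  · intro a
    rw [stL_apply, evX_mul, evX_star, Matrix.mul_apply]
    refine Finset.sum_nonneg fun j _ => ?_
    rw [Matrix.star_apply]
    exact star_mul_self_nonneg _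
  · rw [stL_apply, evX_e00, Matrix.single_apply_same]
  · intro a _ b hb
    rw [stL_apply, stL_apply, stL_apply, evX_mul, Matrix.mul_apply, Finset.sum_eq_single 0]
    · intro j _ hj
      obtain ⟨n, hn, hnb⟩ := List.getElem_of_mem (Finset.mem_toList.2 hb)
      have hlen : G.toList.length ≤ k := by rw [Finset.length_toList]; exact hG
      have := hx ⟨n, lt_of_lt_of_le hn hlen⟩ j hj
      have h2 : G.toList.getD n 0 = b := by
        rw [List.getD_eq_getElem _ _ hn, hnb]
      simp only [h2] at this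
      rw [this, mul_zero]
    · intro h; exact absurd (Finset.mem_univ _) h

lemma tendsto_e00 : Tendsto (fun k => PP.p k (e00 (nu k) k)) atTop (𝓝 0) := by
  have h : (fun k => PP.p k (e00 (nu k) k)) = fun k : ℕ => 1 / Real.sqrt ((k : ℝ) + 1) := by
    funext k
    exact pp_e00
  rw [h]
  refine Tendsto.div_atTop tendsto_const_nhds ?_
  exact Real.tendsto_sqrt_atTop.comp (tendsto_atTop_add_const_right _ _ tendsto_natCast_atTop_atTop)

/-- The trace problem has a negative answer. -/
theorem main : ∃ (A : Type) (_ : CStarAlgebra A) (M : Type) (_ : CStarAlgebra M)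
    (q : (ℕ → A) → M), (traces A).Nonempty ∧ IsCompact (traces A) ∧
      IsUniformTracialCompletion q ∧ ∃ τ : M →L[ℂ] ℂ, IsTrace τ ∧ ¬ IsTwoContinuous q τ := by
  refine ⟨Alg (normNF BB), inferInstance, Alg PP, inferInstance, qmap PP, ?_, ?_, ?_, ?_⟩
  · exact hasExp_PP.traces_nonempty
  · exact isCompact_traces _
  · exact good_PP.isUniformTracialCompletion
  · obtain ⟨τ, h1, -, h3⟩ := exists_character PP (fun k => e00 (nu k) k)
      (fun k => norm_e00_le) tendsto_e00 hasStates
    exact ⟨τ, h1, not_twoContinuous good_PP _ _ tendsto_e00 τ h3⟩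

end

end Pool.Agent.Work.MP_1fb4c7_an
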