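import Mathlib

/-!
# Definitions for the trace problem for uniform tracial completions
-/

open scoped ComplexOrder Topology
open Filter

namespace Pool.Agent.Work.MP_1fb4c7_an

/-- A trace on a unital C*-algebra: a positive linear functional of norm one which is
tracial. -/
def IsTrace {A : Type*} [CStarAlgebra A] (τ : A →L[ℂ] ℂ) : Prop :=
  ‖τ‖ = 1 ∧ (∀ a : A, 0 ≤ τ (star a * a)) ∧ ∀ a b : A, τ (a * b) = τ (b * a)

/-- The space `T(A)` of all traces on `A`, as a subset of the dual of `A` with its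
weak-* topology. -/
def traces (A : Type*) [CStarAlgebra A] : Set (WeakDual ℂ A) :=
  {τ | IsTrace (WeakDual.toStrongDual τ)}

/-- The uniform 2-seminorm `‖a‖_{2,T(A)}`, the supremum over all traces `τ` on `A` of
`τ(a* a)^(1/2)`. -/
noncomputable def norm2 {A : Type*} [CStarAlgebra A] (a : A) : ℝ :=
  ⨆ τ : {τ : A →L[ℂ] ℂ // IsTrace τ}, Real.sqrt (τ.1 (star a * a)).re

/-- The norm-bounded sequences in `A` which are Cauchy for the uniform 2-seminorm. -/
def BddCauchy (A : Type*) [CStarAlgebra A] : Set (ℕ → A) :=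
  {s | (∃ C : ℝ, ∀ n, ‖s n‖ ≤ C) ∧
    ∀ ε : ℝ, 0 < ε → ∃ N : ℕ, ∀ m, N ≤ m → ∀ n, N ≤ n → norm2 (s m - s n) < ε}

/-- `IsUniformTracialCompletion q` says that the C*-algebra `M` is, through the map `q`,
the uniform tracial completion of `A`: restricted to the norm-bounded sequences in `A` which are
Cauchy for the uniform 2-seminorm, `q` is a surjective *-homomorphism to `M` for the
termwise operations, and the sequences it kills are precisely those
which tend to `0` in the uniform 2-seminorm. (The values of `q` at other sequences play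
no role.) -/
structure IsUniformTracialCompletion {A M : Type*} [CStarAlgebra A] [CStarAlgebra M]
    (q : (ℕ → A) → M) : Prop where
  map_add : ∀ s ∈ BddCauchy A, ∀ t ∈ BddCauchy A, q (s + t) = q s + q t
  map_mul : ∀ s ∈ BddCauchy A, ∀ t ∈ BddCauchy A, q (s * t) = q s * q t
  map_smul : ∀ (c : ℂ), ∀ s ∈ BddCauchy A, q (c • s) = c • q s
  map_star : ∀ s ∈ BddCauchy A, q (star s) = star (q s)
  surj : ∀ x : M, ∃ s ∈ BddCauchy A, q s = x
  ker : ∀ s ∈ BddCauchy A, q s = 0 ↔ Tendsto (fun n => norm2 (s n)) atTop (𝓝 0)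

/-- Continuity of a functional `τ` on the completion `M` with respect to the extension of
the uniform 2-seminorm to `M`, whose value at `q s` is the limit of `norm2 (s n)`. -/
def IsTwoContinuous {A M : Type*} [CStarAlgebra A] [CStarAlgebra M]
    (q : (ℕ → A) → M) (τ : M →L[ℂ] ℂ) : Prop :=
  ∀ ε : ℝ, 0 < ε → ∃ δ : ℝ, 0 < δ ∧ ∀ s ∈ BddCauchy A, ∀ r : ℝ,
    Tendsto (fun n => norm2 (s n)) atTop (𝓝 r) → r < δ → ‖τ (q s)‖ < ε

end Pool.Agent.Work.MP_1fb4c7_an
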