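import Pool.Agent.Work.MP_1fb4c7_an.Defs

/-!
# General facts on traces of a unital C*-algebra
-/

open scoped ComplexOrder Topology InnerProductSpace
open Filter

namespace Pool.Agent.Work.MP_1fb4c7_an

section

variable {A : Type*} [CStarAlgebra A]

/-- A positive functional satisfies `‖τ a‖ ≤ ‖a‖ τ(1)`, and `τ 1` is real. -/
lemma norm_le_of_pos (τ : A →L[ℂ] ℂ) (h : ∀ a : A, 0 ≤ τ (star a * a)) (a : A) :
    ‖τ a‖ ≤ ‖a‖ * (τ 1).re := by
  let _ := CStarAlgebra.spectralOrder A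
  have _ := CStarAlgebra.spectralOrderedRing A
  let f : A →ₚ[ℂ] ℂ := PositiveLinearMap.mk₀ (τ : A →ₗ[ℂ] ℂ) (by
    intro x hx
    obtain ⟨b, rfl⟩ := CStarAlgebra.nonneg_iff_eq_star_mul_self.mp hx
    exact h b)
  have hf : ∀ x, f x = τ x := fun x => rfl
  have h1 : τ a = ⟪f.toPreGNS 1, f.toPreGNS a⟫_ℂ := by
    rw [PositiveLinearMap.preGNS_inner_def]
    simp [hf]
  have h1r : 0 ≤ (τ 1).re := by
    have := h 1
    simp only [star_one, mul_one] at this
    exact (Complex.le_def.1 this).1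
  have hn1 : ‖f.toPreGNS 1‖ = Real.sqrt (τ 1).re := by
    rw [PositiveLinearMap.preGNS_norm_def]
    simp [hf]
  have h2 : ‖f.toPreGNS a‖ ≤ ‖a‖ * Real.sqrt (τ 1).re := by
    have h3 := (f.leftMulMapPreGNS a).le_opNorm (f.toPreGNS 1)
    have h4 : ‖f.leftMulMapPreGNS a‖ ≤ ‖a‖ := by
      unfold PositiveLinearMap.leftMulMapPreGNS
      exact LinearMap.mkContinuous_norm_le _ (norm_nonneg _) _
    have h5 : f.leftMulMapPreGNS a (f.toPreGNS 1) = f.toPreGNS a := by
      simp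
    rw [h5, hn1] at h3
    exact h3.trans (mul_le_mul_of_nonneg_right h4 (Real.sqrt_nonneg _))
  rw [h1]
  calc ‖⟪f.toPreGNS 1, f.toPreGNS a⟫_ℂ‖ ≤ ‖f.toPreGNS 1‖ * ‖f.toPreGNS a‖ :=
        norm_inner_le_norm _ _
    _ ≤ Real.sqrt (τ 1).re * (‖a‖ * Real.sqrt (τ 1).re) := by
        rw [hn1]
        exact mul_le_mul_of_nonneg_left h2 (Real.sqrt_nonneg _)
    _ = ‖a‖ * (τ 1).re := by
        rw [mul_left_comm, Real.mul_self_sqrt h1r]

lemma isTrace_iff {A : Type*} [CStarAlgebra A] [Nontrivial A] (τ : A →L[ℂ] ℂ) :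
    IsTrace τ ↔ ‖τ‖ ≤ 1 ∧ τ 1 = 1 ∧ (∀ a : A, 0 ≤ τ (star a * a)) ∧
      ∀ a b : A, τ (a * b) = τ (b * a) := by
  constructor
  · rintro ⟨h1, h2, h3⟩
    have h4 : ‖τ‖ ≤ (τ 1).re := by
      refine ContinuousLinearMap.opNorm_le_bound _ ?_ ?_
      · have := h2 1
        simp only [star_one, mul_one] at this
        exact (Complex.le_def.1 this).1
      · intro x
        rw [mul_comm]
        exact norm_le_of_pos τ h2 x
    have h5 : ‖τ 1‖ ≤ 1 := by
      have := τ.le_opNorm 1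
      rwa [h1, one_mul, CStarRing.norm_one] at this
    have h6 : (τ 1).im = 0 := by
      have := h2 1
      simp only [star_one, mul_one] at this
      exact (Complex.le_def.1 this).2.symm
    have h7 : (τ 1).re ≤ 1 := (Complex.re_le_norm _).trans h5
    refine ⟨h1.le, ?_, h2, h3⟩
    apply Complex.ext
    · rw [Complex.one_re]
      exact le_antisymm h7 (by rw [h1] at h4; exact h4)
    · rw [h6, Complex.one_im]
  · rintro ⟨h1, h2, h3, h4⟩
    refine ⟨le_antisymm h1 ?_, h3, h4⟩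
    have := τ.le_opNorm 1
    rw [h2, norm_one, CStarRing.norm_one, mul_one] at this
    exact this

/-- The trace space of a unital C*-algebra is weak-* compact. -/
lemma isCompact_traces (A : Type*) [CStarAlgebra A] [Nontrivial A] :
    IsCompact (traces A) := by
  have h : traces A = (WeakDual.toStrongDual ⁻¹' Metric.closedBall (0 : StrongDual ℂ A) 1) ∩
      ({τ : WeakDual ℂ A | τ 1 = 1} ∩ ({τ : WeakDual ℂ A | ∀ a : A, 0 ≤ τ (star a * a)} ∩
        {τ : WeakDual ℂ A | ∀ a b : A, τ (a * b) = τ (b * a)})) := by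
    ext τ
    rw [traces, Set.mem_ofPred_eq, isTrace_iff]
    simp only [Set.mem_inter_iff, Set.mem_preimage, mem_closedBall_zero_iff,
      Set.mem_ofPred_eq]
    rfl
  rw [h]
  refine (WeakDual.isCompact_closedBall (0 : StrongDual ℂ A) 1).inter_right ?_
  refine IsClosed.inter ?_ (IsClosed.inter ?_ ?_)
  · exact isClosed_eq (WeakDual.eval_continuous 1) continuous_const
  · have : {τ : WeakDual ℂ A | ∀ a : A, 0 ≤ τ (star a * a)} =
        ⋂ a : A, {τ : WeakDual ℂ A | 0 ≤ τ (star a * a)} := by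
      ext τ; simp
    rw [this]
    exact isClosed_iInter fun a => isClosed_le continuous_const (WeakDual.eval_continuous _)
  · have : {τ : WeakDual ℂ A | ∀ a b : A, τ (a * b) = τ (b * a)} =
        ⋂ a : A, ⋂ b : A, {τ : WeakDual ℂ A | τ (a * b) = τ (b * a)} := by
      ext τ; simp
    rw [this]
    exact isClosed_iInter fun a => isClosed_iInter fun b =>
      isClosed_eq (WeakDual.eval_continuous _) (WeakDual.eval_continuous _)

lemma bddAbove_norm2 [Nontrivial A] (a : A) :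
    BddAbove (Set.range fun τ : {τ : A →L[ℂ] ℂ // IsTrace τ} =>
      Real.sqrt (τ.1 (star a * a)).re) := by
  refine ⟨‖a‖, ?_⟩
  rintro _ ⟨τ, rfl⟩
  have h := ((isTrace_iff τ.1).1 τ.2).1
  refine Real.sqrt_le_iff.2 ⟨norm_nonneg _, ?_⟩
  calc (τ.1 (star a * a)).re ≤ ‖τ.1 (star a * a)‖ := Complex.re_le_norm _
    _ ≤ ‖τ.1‖ * ‖star a * a‖ := τ.1.le_opNorm _
    _ ≤ 1 * ‖star a * a‖ := mul_le_mul_of_nonneg_right h (norm_nonneg _)
    _ = ‖a‖ ^ 2 := by rw [CStarRing.norm_star_mul_self, one_mul, sq]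

lemma le_norm2 [Nontrivial A] (a : A) {τ : A →L[ℂ] ℂ} (h : IsTrace τ) :
    Real.sqrt (τ (star a * a)).re ≤ norm2 a :=
  le_ciSup (bddAbove_norm2 a) (⟨τ, h⟩ : {τ : A →L[ℂ] ℂ // IsTrace τ})

end

end Pool.Agent.Work.MP_1fb4c7_an
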