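import Pool.Agent.Work.MP_1fb4c7_an.Mat
import Pool.Agent.Work.MP_1fb4c7_an.Traces

/-!
# Equivariant matrix-valued functions
-/

open scoped ComplexOrder Topology Matrix.Norms.L2Operator

set_option linter.unusedSectionVars false

namespace Pool.Agent.Work.MP_1fb4c7_an

noncomputable section

variable {X : Type} [TopologicalSpace X] [CompactSpace X] {m : ℕ}

/-- The signs `1, -1, ..., -1`. -/
def sg (i : Fin (m + 1)) : ℂ := if i = 0 then 1 else -1

lemma sg_mul_self (i : Fin (m + 1)) : sg i * sg i = 1 := by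
  unfold sg; split_ifs <;> simp

lemma star_sg (i : Fin (m + 1)) : star (sg i) = sg i := by
  unfold sg; split_ifs <;> simp

/-- The algebra of the functions `b` with `b (ν x) = γ b(x) γ`, `γ = diag(1,-1,...,-1)`. -/
def Eqv (ν : X → X) (m : ℕ) : StarSubalgebra ℂ C(X, Mt m) where
  carrier := {b | ∀ x i j, b (ν x) i j = sg i * sg j * b x i j}
  mul_mem' := by
    intro a b ha hb x i j
    rw [ContinuousMap.mul_apply, ContinuousMap.mul_apply, Matrix.mul_apply, Matrix.mul_apply,
      Finset.mul_sum]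
    refine Finset.sum_congr rfl fun l _ => ?_
    rw [ha x i l, hb x l j]
    calc sg i * sg l * a x i l * (sg l * sg j * b x l j) =
        (sg l * sg l) * (sg i * sg j * (a x i l * b x l j)) := by ring
      _ = _ := by rw [sg_mul_self, one_mul]
  add_mem' := by
    intro a b ha hb x i j
    rw [ContinuousMap.add_apply, ContinuousMap.add_apply, Matrix.add_apply, Matrix.add_apply,
      ha x i j, hb x i j, mul_add]
  algebraMap_mem' := by
    intro r x i j
    have h : ∀ y, (algebraMap ℂ C(X, Mt m) r) y = algebraMap ℂ (Mt m) r := fun y => rfl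
    rw [h, h, Matrix.algebraMap_matrix_apply]
    split_ifs with hij
    · subst hij
      rw [sg_mul_self, one_mul]
    · rw [mul_zero]
  star_mem' := by
    intro a ha x i j
    rw [ContinuousMap.star_apply, ContinuousMap.star_apply, Matrix.star_apply,
      Matrix.star_apply, ha x j i, star_mul, star_mul, star_sg, star_sg]
    ring

lemma single_sum {ι : Type} (s : Finset ι) (i j : Fin (m + 1)) (f : ι → ℂ) :
    (Matrix.single i j (∑ l ∈ s, f l) : Mt m) = ∑ l ∈ s, Matrix.single i j (f l) :=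
  map_sum (Matrix.singleAddMonoidHom (α := ℂ) i j) f s

lemma mem_Eqv {ν : X → X} {b : C(X, Mt m)} :
    b ∈ Eqv ν m ↔ ∀ x i j, b (ν x) i j = sg i * sg j * b x i j := Iff.rfl

lemma continuous_entry (x : X) (i j : Fin (m + 1)) :
    Continuous fun b : C(X, Mt m) => b x i j :=
  (continuous_apply_apply i j).comp (continuous_eval_const x)

lemma isClosed_Eqv (ν : X → X) (m : ℕ) : IsClosed (Eqv ν m : Set C(X, Mt m)) := by
  have h : (Eqv ν m : Set C(X, Mt m)) =
      ⋂ x, ⋂ i, ⋂ j, {b | b (ν x) i j = sg i * sg j * b x i j} := by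
    ext b
    simp only [Set.mem_iInter]
    exact mem_Eqv
  rw [h]
  refine isClosed_iInter fun x => isClosed_iInter fun i => isClosed_iInter fun j => ?_
  exact isClosed_eq (continuous_entry _ _ _) (continuous_const.mul (continuous_entry _ _ _))

instance (ν : X → X) (m : ℕ) : IsClosed (Eqv ν m : Set C(X, Mt m)) := isClosed_Eqv ν m

instance (ν : X → X) (m : ℕ) : CStarAlgebra (Eqv ν m) := inferInstance

variable {ν : X → X}

instance [Nonempty X] : Nontrivial (Eqv ν m) := by
  refine ⟨0, 1, fun h => ?_⟩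
  obtain ⟨x⟩ := (inferInstance : Nonempty X)
  have h1 : ((0 : Eqv ν m) : C(X, Mt m)) x 0 0 = ((1 : Eqv ν m) : C(X, Mt m)) x 0 0 := by rw [h]
  have h2 : ((0 : Eqv ν m) : C(X, Mt m)) x 0 0 = 0 := rfl
  have h3 : ((1 : Eqv ν m) : C(X, Mt m)) x 0 0 = (1 : Mt m) 0 0 := rfl
  rw [h2, h3, Matrix.one_apply_eq] at h1
  exact zero_ne_one h1

/-- Evaluation at a point. -/
def evX (x : X) : Eqv ν m →ₗ[ℂ] Mt m where
  toFun := fun b => b.1 x
  map_add' := fun _ _ => rfl
  map_smul' := fun _ _ => rfl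

lemma evX_apply (x : X) (b : Eqv ν m) : evX x b = b.1 x := rfl

lemma evX_mul (x : X) (a b : Eqv ν m) : evX x (a * b) = evX x a * evX x b := rfl

lemma evX_star (x : X) (a : Eqv ν m) : evX x (star a) = star (evX x a) := rfl

lemma evX_one (x : X) : evX x (1 : Eqv ν m) = 1 := rfl

lemma eqv_ext {a b : Eqv ν m} (h : ∀ x, evX x a = evX x b) : a = b :=
  Subtype.ext (ContinuousMap.ext h)

lemma norm_evX_le (x : X) (b : Eqv ν m) : ‖evX x b‖ ≤ ‖b‖ :=
  ContinuousMap.norm_coe_le_norm b.1 x

lemma norm_eqv_le {b : Eqv ν m} {C : ℝ} (hC : 0 ≤ C) (h : ∀ x, ‖evX x b‖ ≤ C) : ‖b‖ ≤ C :=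
  (ContinuousMap.norm_le b.1 hC).2 h

/-- The function `f` in the matrix entry `(i, j)`. -/
def el (ν : X → X) (f : C(X, ℂ)) (i j : Fin (m + 1))
    (h : ∀ x, f (ν x) = sg i * sg j * f x) : Eqv ν m :=
  ⟨⟨fun x => Matrix.single i j (f x), by
    refine continuous_matrix fun a b => ?_
    by_cases hab : i = a ∧ j = b
    · obtain ⟨rfl, rfl⟩ := hab
      simpa using f.continuous
    · simp only [Matrix.single_apply_of_ne _ _ _ _ _ hab]
      exact continuous_const⟩, by
    intro x a b
    by_cases hab : i = a ∧ j = b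
    · obtain ⟨rfl, rfl⟩ := hab
      change Matrix.single i j (f (ν x)) i j = _ * Matrix.single i j (f x) i j
      rw [Matrix.single_apply_same, Matrix.single_apply_same]
      exact h x
    · change Matrix.single i j (f (ν x)) a b = _ * Matrix.single i j (f x) a b
      rw [Matrix.single_apply_of_ne _ _ _ _ _ hab, Matrix.single_apply_of_ne _ _ _ _ _ hab,
        mul_zero]⟩

lemma evX_el (x : X) (f : C(X, ℂ)) (i j : Fin (m + 1)) (h) :
    evX x (el ν f i j h) = Matrix.single i j (f x) := rfl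

/-- The entries of an element. -/
def ent (b : Eqv ν m) (i j : Fin (m + 1)) : C(X, ℂ) :=
  ⟨fun x => b.1 x i j, (continuous_apply_apply i j).comp b.1.continuous⟩

lemma ent_apply (b : Eqv ν m) (i j : Fin (m + 1)) (x : X) : ent b i j x = evX x b i j := rfl

lemma ent_eq (b : Eqv ν m) (i j : Fin (m + 1)) (x : X) :
    ent b i j (ν x) = sg i * sg j * ent b i j x := b.2 x i j

lemma ent_diag (b : Eqv ν m) (i j : Fin (m + 1)) (x : X) :
    ent b i i (ν x) = sg j * sg j * ent b i i x := by
  rw [ent_eq, sg_mul_self, sg_mul_self]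

lemma trace_swap {ι : Type} (s : Finset ι) (τ : Eqv ν m →L[ℂ] ℂ)
    (hτ : ∀ a b, τ (a * b) = τ (b * a)) (p q : ι → Eqv ν m) {a b : Eqv ν m}
    (ha : a = ∑ l ∈ s, p l * q l) (hb : b = ∑ l ∈ s, q l * p l) : τ a = τ b := by
  rw [ha, hb, map_sum, map_sum]
  exact Finset.sum_congr rfl fun l _ => hτ _ _

/-- A partition of unity by squares of odd functions. -/
structure OddUnit (ν : X → X) (N : ℕ) where
  u : Fin N → C(X, ℝ)
  odd : ∀ l x, u l (ν x) = - u l x
  sum : ∀ x, ∑ l, u l x ^ 2 = 1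

/-- A real function as a complex function. -/
def toC (u : C(X, ℝ)) : C(X, ℂ) := ⟨fun x => (u x : ℂ), Complex.continuous_ofReal.comp u.continuous⟩

lemma toC_apply (u : C(X, ℝ)) (x : X) : toC u x = (u x : ℂ) := rfl

lemma sg_ne {i j : Fin (m + 1)} (h : sg i ≠ sg j) : sg i * sg j = -1 := by
  unfold sg at *
  split_ifs at * <;> simp_all

lemma trace_el_eq {N : ℕ} (U : OddUnit ν N) (τ : Eqv ν m →L[ℂ] ℂ)
    (hτ : ∀ a b, τ (a * b) = τ (b * a)) (f : C(X, ℂ)) (i j : Fin (m + 1))
    (hi : ∀ x, f (ν x) = sg i * sg i * f x) (hj : ∀ x, f (ν x) = sg j * sg j * f x) :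
    τ (el ν f i i hi) = τ (el ν f j j hj) := by
  by_cases hij : sg i = sg j
  · have h1 : ∀ x, f (ν x) = sg i * sg j * f x := by
      intro x; rw [← hij]; exact hi x
    have h2 : ∀ x, (1 : C(X, ℂ)) (ν x) = sg j * sg i * (1 : C(X, ℂ)) x := by
      intro x
      rw [hij, sg_mul_self]
      simp
    refine trace_swap (ι := Unit) Finset.univ τ hτ (fun _ => el ν f i j h1)
      (fun _ => el ν 1 j i h2) ?_ ?_
    · refine eqv_ext fun x => ?_
      rw [map_sum, Finset.univ_unique, Finset.sum_singleton, evX_mul, evX_el, evX_el, evX_el,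
        Matrix.single_mul_single_same]
      simp
    · refine eqv_ext fun x => ?_
      rw [map_sum, Finset.univ_unique, Finset.sum_singleton, evX_mul, evX_el, evX_el, evX_el,
        Matrix.single_mul_single_same]
      simp
  · have h0 : sg i * sg j = -1 := sg_ne hij
    have h0' : sg j * sg i = -1 := by rw [mul_comm]; exact h0
    have hf : ∀ x, f (ν x) = f x := by
      intro x; rw [hi x, sg_mul_self, one_mul]
    have h1 : ∀ l x, (f * toC (U.u l)) (ν x) = sg i * sg j * (f * toC (U.u l)) x := by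
      intro l x
      rw [h0, ContinuousMap.mul_apply, ContinuousMap.mul_apply, hf, toC_apply, toC_apply, U.odd]
      push_cast
      ring
    have h2 : ∀ l x, (toC (U.u l)) (ν x) = sg j * sg i * (toC (U.u l)) x := by
      intro l x
      rw [h0', toC_apply, toC_apply, U.odd]
      push_cast
      ring
    have h3 : ∀ x, ∑ l, (f x * (U.u l x : ℂ)) * (U.u l x : ℂ) = f x := by
      intro x
      have : ∑ l, (U.u l x : ℂ) ^ 2 = 1 := by
        rw [← Complex.ofReal_one, ← U.sum x]
        push_cast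
        rfl
      calc ∑ l, (f x * (U.u l x : ℂ)) * (U.u l x : ℂ) = f x * ∑ l, (U.u l x : ℂ) ^ 2 := by
            rw [Finset.mul_sum]
            exact Finset.sum_congr rfl fun l _ => by ring
        _ = f x := by rw [this, mul_one]
    refine trace_swap (ι := Fin N) Finset.univ τ hτ (fun l => el ν (f * toC (U.u l)) i j (h1 l))
      (fun l => el ν (toC (U.u l)) j i (h2 l)) ?_ ?_
    · refine eqv_ext fun x => ?_
      rw [map_sum, evX_el]
      simp only [evX_mul, evX_el, Matrix.single_mul_single_same, ContinuousMap.mul_apply,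
        toC_apply]
      conv_lhs => rw [← h3 x]
      exact single_sum _ _ _ _
    · refine eqv_ext fun x => ?_
      rw [map_sum, evX_el]
      simp only [evX_mul, evX_el, Matrix.single_mul_single_same, ContinuousMap.mul_apply,
        toC_apply]
      conv_lhs => rw [← h3 x]
      rw [single_sum]
      exact Finset.sum_congr rfl fun l _ => by rw [mul_comm]

lemma trace_el_ne (τ : Eqv ν m →L[ℂ] ℂ)
    (hτ : ∀ a b, τ (a * b) = τ (b * a)) (f : C(X, ℂ)) {i j : Fin (m + 1)} (hij : i ≠ j)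
    (h : ∀ x, f (ν x) = sg i * sg j * f x) : τ (el ν f i j h) = 0 := by
  have h1 : ∀ x, (1 : C(X, ℂ)) (ν x) = sg i * sg i * (1 : C(X, ℂ)) x := by
    intro x
    rw [sg_mul_self]
    simp
  have e1 : el ν f i j h = el ν 1 i i h1 * el ν f i j h := by
    refine eqv_ext fun x => ?_
    rw [evX_mul, evX_el, evX_el, Matrix.single_mul_single_same]
    simp
  have e2 : el ν f i j h * el ν 1 i i h1 = 0 := by
    refine eqv_ext fun x => ?_
    rw [evX_mul, evX_el, evX_el, Matrix.single_mul_single_of_ne _ _ _ _ (Ne.symm hij), map_zero]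
  rw [e1, hτ, e2, map_zero]

lemma eq_sum_el (b : Eqv ν m) : b = ∑ i, ∑ j, el ν (ent b i j) i j (ent_eq b i j) := by
  refine eqv_ext fun x => ?_
  rw [map_sum]
  simp only [map_sum, evX_el]
  exact Matrix.matrix_eq_sum_single (evX x b)

lemma trace_eq_sum {N : ℕ} (U : OddUnit ν N) (τ : Eqv ν m →L[ℂ] ℂ)
    (hτ : ∀ a b, τ (a * b) = τ (b * a)) (b : Eqv ν m) :
    τ b = ∑ i, τ (el ν (ent b i i) 0 0 (ent_diag b i 0)) := by
  conv_lhs => rw [eq_sum_el b]
  rw [map_sum]
  refine Finset.sum_congr rfl fun i _ => ?_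
  rw [map_sum, Finset.sum_eq_single i]
  · exact trace_el_eq U τ hτ _ _ _ _ _
  · intro j _ hj
    exact trace_el_ne τ hτ _ (Ne.symm hj) _
  · intro h; exact absurd (Finset.mem_univ _) h

lemma ntr_eqv (b : Eqv ν m) (x : X) : ntr (evX (ν x) b) = ntr (evX x b) := by
  unfold ntr
  congr 1
  refine Finset.sum_congr rfl fun i _ => ?_
  have := b.2 x i i
  rw [sg_mul_self, one_mul] at this
  exact this

/-- The normalized trace of `b` as a function. -/
def ntrC (b : Eqv ν m) : C(X, ℂ) := ⟨fun x => ntr (b.1 x), continuous_ntr.comp b.1.continuous⟩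

lemma ntrC_apply (b : Eqv ν m) (x : X) : ntrC b x = ntr (evX x b) := rfl

/-- The centre-valued trace. -/
def EE : Eqv ν m →ₗ[ℂ] Eqv ν m where
  toFun := fun b => ⟨⟨fun x => ntr (b.1 x) • (1 : Mt m),
    (continuous_ntr.comp b.1.continuous).smul continuous_const⟩, by
      intro x i j
      change ntr (evX (ν x) b) • (1 : Mt m) i j = sg i * sg j * (ntr (evX x b) • (1 : Mt m) i j)
      rw [ntr_eqv]
      by_cases hij : i = j
      · subst hij
        rw [sg_mul_self, one_mul]
      · rw [Matrix.one_apply_ne hij, smul_zero, mul_zero]⟩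
  map_add' := by
    intro a b
    refine eqv_ext fun x => ?_
    rw [map_add]
    change ntr (a.1 x + b.1 x) • (1 : Mt m) = ntr (a.1 x) • (1 : Mt m) + ntr (b.1 x) • (1 : Mt m)
    rw [ntr_add, add_smul]
  map_smul' := by
    intro c b
    refine eqv_ext fun x => ?_
    rw [map_smul]
    change ntr (c • b.1 x) • (1 : Mt m) = c • (ntr (b.1 x) • (1 : Mt m))
    rw [ntr_smul, mul_smul]

lemma evX_EE (b : Eqv ν m) (x : X) : evX x (EE b) = ntr (evX x b) • (1 : Mt m) := rfl

lemma norm_EE_le [Nonempty X] (b : Eqv ν m) : ‖EE b‖ ≤ ‖b‖ := by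
  refine norm_eqv_le (norm_nonneg _) fun x => ?_
  rw [evX_EE, norm_smul, CStarRing.norm_one, mul_one]
  exact (ntr_le _).trans (norm_evX_le x b)

lemma EE_one : EE (1 : Eqv ν m) = 1 := by
  refine eqv_ext fun x => ?_
  rw [evX_EE, evX_one, ntr_one, one_smul]

lemma trace_EE {N : ℕ} (U : OddUnit ν N) (τ : Eqv ν m →L[ℂ] ℂ)
    (hτ : ∀ a b, τ (a * b) = τ (b * a)) (b : Eqv ν m) : τ (EE b) = τ b := by
  rw [trace_eq_sum U τ hτ b, trace_eq_sum U τ hτ (EE b), ← map_sum, ← map_sum]
  congr 1
  refine eqv_ext fun x => ?_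
  rw [map_sum, map_sum]
  simp only [evX_el, ent_apply, evX_EE]
  have h1 : ∑ i : Fin (m + 1), (Matrix.single 0 0 ((ntr (evX x b) • (1 : Mt m)) i i) : Mt m) =
      Matrix.single 0 0 (∑ i : Fin (m + 1), (ntr (evX x b) • (1 : Mt m)) i i) :=
    (single_sum _ _ _ _).symm
  have h2 : ∑ i : Fin (m + 1), (Matrix.single 0 0 (evX x b i i) : Mt m) =
      Matrix.single 0 0 (∑ i : Fin (m + 1), evX x b i i) :=
    (single_sum _ _ _ _).symm
  rw [h1, h2]
  congr 1
  simp only [Matrix.smul_apply, Matrix.one_apply_eq, smul_eq_mul, mul_one, Finset.sum_const,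
    Finset.card_univ, Fintype.card_fin, nsmul_eq_mul]
  unfold ntr
  push_cast
  rw [mul_div_cancel₀]
  exact_mod_cast Nat.succ_ne_zero m

end

end Pool.Agent.Work.MP_1fb4c7_an
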