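import Mathlib

/-!
# The normalized Hilbert-Schmidt norm of a matrix
-/

open scoped ComplexOrder Topology Matrix.Norms.L2Operator

namespace Pool.Agent.Work.MP_1fb4c7_an

noncomputable section

/-- Square matrices of size `m + 1`, with the operator norm. -/
abbrev Mt (m : ℕ) := Matrix (Fin (m + 1)) (Fin (m + 1)) ℂ

variable {m : ℕ}

/-- The normalized Hilbert-Schmidt norm. -/
def hs (T : Mt m) : ℝ := Real.sqrt ((∑ i, ∑ j, ‖T i j‖ ^ 2) / (m + 1))

/-- The matrix as a vector. -/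
def hsV (T : Mt m) : EuclideanSpace ℂ (Fin (m + 1) × Fin (m + 1)) :=
  WithLp.toLp 2 (fun p : Fin (m + 1) × Fin (m + 1) => T p.1 p.2)

lemma hsV_apply (T : Mt m) (p : Fin (m + 1) × Fin (m + 1)) : hsV T p = T p.1 p.2 := rfl

lemma hsV_add (S T : Mt m) : hsV (S + T) = hsV S + hsV T := by
  ext p
  rw [PiLp.add_apply, hsV_apply, hsV_apply, hsV_apply, Matrix.add_apply]

lemma hs_eq (T : Mt m) : hs T = ‖hsV T‖ / Real.sqrt (m + 1) := by
  rw [EuclideanSpace.norm_eq, hs, Real.sqrt_div (by positivity), Fintype.sum_prod_type]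
  rfl

lemma hs_nonneg (T : Mt m) : 0 ≤ hs T := Real.sqrt_nonneg _

lemma hs_add (S T : Mt m) : hs (S + T) ≤ hs S + hs T := by
  rw [hs_eq, hs_eq, hs_eq, ← add_div, hsV_add]
  exact div_le_div_of_nonneg_right (norm_add_le _ _) (Real.sqrt_nonneg _)

lemma hs_neg (T : Mt m) : hs (-T) = hs T := by
  unfold hs; simp

lemma hs_star (T : Mt m) : hs (star T) = hs T := by
  unfold hs
  rw [Finset.sum_comm]
  simp [Matrix.star_apply]

lemma hs_sq (T : Mt m) : hs T ^ 2 = (∑ i, ∑ j, ‖T i j‖ ^ 2) / (m + 1) :=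
  Real.sq_sqrt (by positivity)

lemma hs_scalar (c : ℂ) : hs (algebraMap ℂ (Mt m) c) = ‖c‖ := by
  rw [hs]
  have h : ∑ i : Fin (m + 1), ∑ j : Fin (m + 1), ‖(algebraMap ℂ (Mt m) c) i j‖ ^ 2 =
      (m + 1) * ‖c‖ ^ 2 := by
    have h1 : ∀ i j : Fin (m + 1), ‖(algebraMap ℂ (Mt m) c) i j‖ ^ 2 =
        if i = j then ‖c‖ ^ 2 else 0 := by
      intro i j
      rw [Matrix.algebraMap_matrix_apply]
      split_ifs <;> simp
    simp only [h1, Finset.sum_ite_eq, Finset.mem_univ, if_true, Finset.sum_const,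
      Finset.card_univ, Fintype.card_fin, nsmul_eq_mul]
    push_cast
    ring
  rw [h, mul_div_cancel_left₀ _ (by positivity), Real.sqrt_sq (norm_nonneg _)]

/-- The columns of `S * T`. -/
lemma col_le (S : Mt m) (v : Fin (m + 1) → ℂ) :
    ∑ i, ‖(S.mulVec v) i‖ ^ 2 ≤ ‖S‖ ^ 2 * ∑ i, ‖v i‖ ^ 2 := by
  have h := Matrix.l2_opNorm_mulVec S (WithLp.toLp 2 v)
  have h2 := pow_le_pow_left₀ (norm_nonneg _) h 2
  rw [mul_pow, EuclideanSpace.norm_sq_eq, EuclideanSpace.norm_sq_eq] at h2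
  exact h2

lemma hs_mul (S T : Mt m) : hs (S * T) ≤ ‖S‖ * hs T := by
  have h1 : ∑ i, ∑ j, ‖(S * T) i j‖ ^ 2 ≤ ‖S‖ ^ 2 * ∑ i, ∑ j, ‖T i j‖ ^ 2 := by
    rw [Finset.sum_comm, Finset.sum_comm (f := fun i j => ‖T i j‖ ^ 2), Finset.mul_sum]
    refine Finset.sum_le_sum fun j _ => ?_
    exact col_le S (fun i => T i j)
  unfold hs
  rw [← Real.sqrt_sq (norm_nonneg S), ← Real.sqrt_mul (sq_nonneg _), mul_div_assoc']
  exact Real.sqrt_le_sqrt (div_le_div_of_nonneg_right h1 (by positivity))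

lemma hs_le (T : Mt m) : hs T ≤ ‖T‖ := by
  have h := hs_mul T 1
  have h1 : hs (1 : Mt m) = 1 := by
    have := hs_scalar (m := m) 1
    rw [map_one, norm_one] at this
    exact this
  rwa [mul_one, h1, mul_one] at h

lemma norm_single_le (i j : Fin (m + 1)) : ‖(Matrix.single i j (1 : ℂ) : Mt m)‖ ≤ 1 := by
  have h := Matrix.l2_opNorm_conjTranspose_mul_self (Matrix.single i j (1 : ℂ) : Mt m)
  rw [Matrix.conjTranspose_single, Matrix.single_mul_single_same] at h
  have h2 : (Matrix.single j j (star (1 : ℂ) * 1) : Mt m) = Matrix.diagonal (Pi.single j 1) := by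
    rw [Matrix.diagonal_single]; simp
  rw [h2, Matrix.l2_opNorm_diagonal] at h
  have h3 : ‖(Pi.single j (1 : ℂ) : Fin (m + 1) → ℂ)‖ ≤ 1 := by
    rw [pi_norm_le_iff_of_nonneg zero_le_one]
    intro i
    by_cases hi : i = j
    · subst hi; simp
    · simp [hi]
  rw [h] at h3
  nlinarith [norm_nonneg (Matrix.single i j (1 : ℂ) : Mt m)]

lemma entry_le_hs (T : Mt m) (i j : Fin (m + 1)) : ‖T i j‖ ≤ Real.sqrt (m + 1) * hs T := by
  unfold hs
  rw [← Real.sqrt_mul (by positivity), mul_div_cancel₀ _ (by positivity)]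
  refine Real.le_sqrt_of_sq_le ?_
  refine le_trans ?_ (Finset.single_le_sum (f := fun i => ∑ j, ‖T i j‖ ^ 2)
    (fun i _ => Finset.sum_nonneg fun j _ => sq_nonneg _) (Finset.mem_univ i))
  exact Finset.single_le_sum (f := fun j => ‖T i j‖ ^ 2) (fun j _ => sq_nonneg _)
    (Finset.mem_univ j)

lemma norm_le_hs (T : Mt m) : ‖T‖ ≤ ((m + 1) ^ 2 * Real.sqrt (m + 1)) * hs T := by
  have h1 : T = ∑ i, ∑ j, T i j • Matrix.single i j (1 : ℂ) := by
    conv_lhs => rw [Matrix.matrix_eq_sum_single T]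
    refine Finset.sum_congr rfl fun i _ => Finset.sum_congr rfl fun j _ => ?_
    rw [Matrix.smul_single, smul_eq_mul, mul_one]
  calc ‖T‖ = ‖∑ i, ∑ j, T i j • Matrix.single i j (1 : ℂ)‖ := by rw [← h1]
    _ ≤ ∑ i, ‖∑ j, T i j • Matrix.single i j (1 : ℂ)‖ := norm_sum_le _ _
    _ ≤ ∑ i : Fin (m + 1), ∑ j : Fin (m + 1), Real.sqrt (m + 1) * hs T := by
      refine Finset.sum_le_sum fun i _ => (norm_sum_le _ _).trans ?_
      refine Finset.sum_le_sum fun j _ => ?_
      rw [norm_smul]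
      calc ‖T i j‖ * ‖(Matrix.single i j (1 : ℂ) : Mt m)‖ ≤ ‖T i j‖ * 1 :=
            mul_le_mul_of_nonneg_left (norm_single_le i j) (norm_nonneg _)
        _ ≤ _ := by rw [mul_one]; exact entry_le_hs T i j
    _ = _ := by
      simp only [Finset.sum_const, Finset.card_univ, Fintype.card_fin, nsmul_eq_mul]
      push_cast
      ring

lemma entry_le_norm (T : Mt m) (i j : Fin (m + 1)) : ‖T i j‖ ≤ ‖T‖ := by
  have h := col_le T (Pi.single j 1)
  have h1 : ∑ i, ‖(Pi.single j (1 : ℂ) : Fin (m + 1) → ℂ) i‖ ^ 2 = 1 := by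
    rw [Finset.sum_eq_single j]
    · simp
    · intro b _ hb; simp [hb]
    · intro h; exact absurd (Finset.mem_univ _) h
  rw [h1, mul_one] at h
  have h2 : ‖T i j‖ ^ 2 ≤ ∑ i, ‖(T.mulVec (Pi.single j 1)) i‖ ^ 2 := by
    refine le_trans ?_ (Finset.single_le_sum (f := fun i => ‖(T.mulVec (Pi.single j 1)) i‖ ^ 2)
      (fun i _ => sq_nonneg _) (Finset.mem_univ i))
    simp
  exact (sq_le_sq₀ (norm_nonneg _) (norm_nonneg _)).1 (h2.trans h)

/-- The normalized trace. -/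
def ntr (T : Mt m) : ℂ := (∑ i, T i i) / (m + 1)

lemma ntr_le (T : Mt m) : ‖ntr T‖ ≤ ‖T‖ := by
  unfold ntr
  rw [norm_div]
  have h : ‖((m : ℂ) + 1)‖ = m + 1 := by
    have : ((m : ℂ) + 1) = ((m + 1 : ℝ) : ℂ) := by push_cast; ring
    rw [this, Complex.norm_real, Real.norm_of_nonneg (by positivity)]
  rw [h, div_le_iff₀ (by positivity)]
  calc ‖∑ i, T i i‖ ≤ ∑ i, ‖T i i‖ := norm_sum_le _ _
    _ ≤ ∑ i : Fin (m + 1), ‖T‖ := Finset.sum_le_sum fun i _ => entry_le_norm T i i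
    _ = ‖T‖ * (m + 1) := by
      simp only [Finset.sum_const, Finset.card_univ, Fintype.card_fin, nsmul_eq_mul]
      push_cast
      ring

lemma ntr_star_mul (T : Mt m) : ntr (star T * T) = ((hs T ^ 2 : ℝ) : ℂ) := by
  rw [hs_sq, ntr]
  push_cast
  congr 1
  rw [Finset.sum_comm]
  refine Finset.sum_congr rfl fun j _ => ?_
  rw [Matrix.mul_apply]
  refine Finset.sum_congr rfl fun i _ => ?_
  rw [Matrix.star_apply, Complex.star_def, Complex.conj_mul']

lemma ntr_comm (S T : Mt m) : ntr (S * T) = ntr (T * S) := by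
  unfold ntr
  congr 1
  exact Matrix.trace_mul_comm S T

lemma ntr_add (S T : Mt m) : ntr (S + T) = ntr S + ntr T := by
  unfold ntr
  rw [← add_div, ← Finset.sum_add_distrib]
  rfl

lemma ntr_smul (c : ℂ) (T : Mt m) : ntr (c • T) = c * ntr T := by
  unfold ntr
  rw [mul_div_assoc', Finset.mul_sum]
  rfl

lemma ntr_one : ntr (1 : Mt m) = 1 := by
  unfold ntr
  simp only [Matrix.one_apply_eq, Finset.sum_const, Finset.card_univ, Fintype.card_fin,
    nsmul_eq_mul, mul_one]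
  push_cast
  exact div_self (by exact_mod_cast Nat.succ_ne_zero m)

lemma hs_single : hs (Matrix.single 0 0 (1 : ℂ) : Mt m) = 1 / Real.sqrt (m + 1) := by
  unfold hs
  have h : ∑ i : Fin (m + 1), ∑ j : Fin (m + 1), ‖(Matrix.single 0 0 (1 : ℂ) : Mt m) i j‖ ^ 2 = 1 := by
    rw [Finset.sum_eq_single 0]
    · rw [Finset.sum_eq_single 0]
      · simp
      · intro j _ hj
        rw [Matrix.single_apply_of_ne]
        · simp
        · tauto
      · intro h; exact absurd (Finset.mem_univ _) h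
    · intro i _ hi
      refine Finset.sum_eq_zero fun j _ => ?_
      rw [Matrix.single_apply_of_ne]
      · simp
      · tauto
    · intro h; exact absurd (Finset.mem_univ _) h
  rw [h, Real.sqrt_div zero_le_one, Real.sqrt_one]

lemma continuous_hs : Continuous (hs : Mt m → ℝ) := by
  unfold hs
  fun_prop

lemma continuous_ntr : Continuous (ntr : Mt m → ℂ) := by
  unfold ntr
  fun_prop

end

end Pool.Agent.Work.MP_1fb4c7_an
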