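import Pool.Agent.Work.MP_1fb4c7_an.Completion

/-!
# The uniform 2-seminorm of the sequence algebra
-/

open scoped ComplexOrder Topology ENNReal
open Filter

set_option linter.unusedSectionVars false

namespace Pool.Agent.Work.MP_1fb4c7_an

noncomputable section

variable {B : ℕ → Type} [∀ k, CStarAlgebra (B k)] [∀ k, Nontrivial (B k)]

instance (P : NF B) : Nontrivial (Alg P) := by
  refine ⟨0, 1, fun h => ?_⟩
  have h1 : ((0 : Alg P) : lp B ∞) 0 = ((1 : Alg P) : lp B ∞) 0 := by rw [h]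
  have h2 : ((0 : Alg P) : lp B ∞) 0 = 0 := rfl
  have h3 : ((1 : Alg P) : lp B ∞) 0 = 1 := rfl
  rw [h2, h3] at h1
  exact zero_ne_one h1

/-- Central-valued traces on the algebras `B k`. -/
structure HasExp (P : NF B) : Prop where
  ex : ∀ k, ∃ E : B k →ₗ[ℂ] B k, (∀ b, ‖E b‖ ≤ ‖b‖) ∧ E 1 = 1 ∧
    (∀ τ : B k →L[ℂ] ℂ, (∀ a b, τ (a * b) = τ (b * a)) → ∀ b, τ (E b) = τ b) ∧
    (∀ b, ‖E (star b * b)‖ ≤ P.p k b ^ 2)
  attained : ∀ k b, ∃ τ : B k →L[ℂ] ℂ, IsTrace τ ∧ P.p k b ^ 2 ≤ (τ (star b * b)).re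

/-- Inclusion of the `k`-th coordinate. -/
def iota (k : ℕ) (b : B k) : lp B ∞ :=
  mkBdd (Pi.single k b) ‖b‖ (fun j => by
    by_cases h : j = k
    · subst h; simp
    · simp [h])

lemma iota_apply (k : ℕ) (b : B k) (j : ℕ) : iota k b j = Pi.single (M := B) k b j := rfl

lemma iota_mem (k : ℕ) (b : B k) : iota k b ∈ Alg (normNF B) := by
  refine ⟨0, tendsto_const_nhds.congr' ?_⟩
  filter_upwards [eventually_gt_atTop k] with j hj
  rw [iota_apply, Pi.single_eq_of_ne (by omega), map_zero, sub_zero, NF.zero]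

/-- The inclusion of the `k`-th coordinate as a continuous linear map. -/
def iotaL (k : ℕ) : B k →L[ℂ] Alg (normNF B) :=
  LinearMap.mkContinuous
    { toFun := fun b => (⟨iota k b, iota_mem k b⟩ : Alg (normNF B))
      map_add' := by
        intro a b
        apply Subtype.ext
        ext j
        have : ((⟨iota k a, iota_mem k a⟩ + ⟨iota k b, iota_mem k b⟩ : Alg (normNF B)) :
          lp B ∞) = iota k a + iota k b := rfl
        rw [this]
        change iota k (a + b) j = iota k a j + iota k b j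
        simp only [iota_apply, Pi.single_add]
        rfl
      map_smul' := by
        intro c b
        apply Subtype.ext
        ext j
        change iota k (c • b) j = c • iota k b j
        simp only [iota_apply, Pi.single_smul]
        rfl } 1 (by
    intro b
    rw [one_mul]
    change ‖iota k b‖ ≤ ‖b‖
    rw [norm_le_iff (norm_nonneg _)]
    intro j
    rw [iota_apply]
    by_cases h : j = k
    · subst h; simp
    · simp [h])

lemma iotaL_coe (k : ℕ) (b : B k) : ((iotaL k b : Alg (normNF B)) : lp B ∞) = iota k b := rfl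

lemma iotaL_mul (k : ℕ) (a b : B k) : iotaL k (a * b) = iotaL k a * iotaL k b := by
  apply Subtype.ext
  ext j
  have : ((iotaL k a * iotaL k b : Alg (normNF B)) : lp B ∞) = iota k a * iota k b := rfl
  rw [this, iotaL_coe, coe_mul]
  simp only [iota_apply, Pi.single_mul]
  rfl

lemma truncSeq_zero_eq (x : lp B ∞) (n : ℕ) :
    truncSeq x 0 n = ∑ k ∈ Finset.range n, iotaL k (x k) := by
  induction n with
  | zero =>
    apply Subtype.ext
    ext j
    change trunc x 0 0 j = 0
    simp [trunc]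
  | succ n ih =>
    rw [Finset.sum_range_succ, ← ih]
    apply Subtype.ext
    ext j
    change trunc x 0 (n + 1) j = trunc x 0 n j + iota n (x n) j
    rw [iota_apply]
    simp only [trunc, mkBdd_apply, map_zero]
    rcases lt_trichotomy j n with h | h | h
    · rw [if_pos (by omega), if_pos h, Pi.single_eq_of_ne (by omega), add_zero]
    · subst h
      rw [if_pos (by omega), if_neg (lt_irrefl _), Pi.single_eq_same, zero_add]
    · rw [if_neg (by omega), if_neg (by omega), Pi.single_eq_of_ne (by omega), add_zero]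

/-- A continuous functional which vanishes on all coordinates of an element `x` tending to zero
vanishes at `x`. -/
lemma apply_eq_zero (τ : Alg (normNF B) →L[ℂ] ℂ) (x : Alg (normNF B))
    (hx : Tendsto (fun k => ‖x.1 k‖) atTop (𝓝 0)) (h : ∀ k, τ (iotaL k (x.1 k)) = 0) :
    τ x = 0 := by
  have h1 : IsLim (normNF B) (truncSeq x.1 0) x := by
    refine isLim_truncSeq x 0 ?_
    refine hx.congr fun k => ?_
    rw [map_zero, sub_zero]
    rfl
  have h2 : ∀ n, τ (truncSeq x.1 0 n) = 0 := by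
    intro n
    rw [truncSeq_zero_eq, map_sum]
    exact Finset.sum_eq_zero fun k _ => h k
  have h3 : Tendsto (fun n => truncSeq x.1 0 n) atTop (𝓝 x) := by
    rw [tendsto_iff_norm_sub_tendsto_zero]
    refine squeeze_zero (fun n => norm_nonneg _) (fun n => ?_) h1
    change ‖trunc x.1 0 n - x.1‖ ≤ NN (normNF B) (trunc x.1 0 n - x.1)
    rw [norm_le_iff (NN_nonneg _ _)]
    exact fun k => p_le_NN (normNF B) (trunc x.1 0 n - x.1) k
  have h4 := (τ.continuous.tendsto x).comp h3
  exact tendsto_nhds_unique h4 (tendsto_const_nhds.congr fun n => (h2 n).symm)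

/-- Evaluation at the coordinate `k`. -/
def evL (P : NF B) (k : ℕ) : Alg P →L[ℂ] B k :=
  LinearMap.mkContinuous
    { toFun := fun b => b.1 k
      map_add' := fun _ _ => rfl
      map_smul' := fun _ _ => rfl } 1 (by
    intro b
    rw [one_mul]
    exact norm_coe_le b.1 k)

lemma evL_apply (P : NF B) (k : ℕ) (a : Alg P) : evL P k a = a.1 k := rfl

lemma IsTrace.comp_evL (P : NF B) {k : ℕ} {τ : B k →L[ℂ] ℂ} (h : IsTrace τ) :
    IsTrace (τ.comp (evL P k)) := by
  rw [isTrace_iff] at h ⊢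
  obtain ⟨h1, h2, h3, h4⟩ := h
  refine ⟨?_, ?_, ?_, ?_⟩
  · refine ContinuousLinearMap.opNorm_le_bound _ zero_le_one fun x => ?_
    rw [ContinuousLinearMap.comp_apply, evL_apply]
    refine (τ.le_opNorm _).trans ?_
    exact mul_le_mul h1 (norm_coe_le x.1 k) (norm_nonneg _) zero_le_one
  · rw [ContinuousLinearMap.comp_apply, evL_apply]
    exact h2
  · intro a
    rw [ContinuousLinearMap.comp_apply, evL_apply]
    exact h3 (a.1 k)
  · intro a b
    rw [ContinuousLinearMap.comp_apply, ContinuousLinearMap.comp_apply, evL_apply, evL_apply]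
    exact h4 (a.1 k) (b.1 k)

theorem HasExp.norm2_le {P : NF B} (hP : HasExp P) (a : Alg (normNF B))
    {τ : Alg (normNF B) →L[ℂ] ℂ} (hτ : IsTrace τ) :
    Real.sqrt (τ (star a * a)).re ≤ NN P a.1 := by
  choose E hE1 hE2 hE3 hE4 using hP.ex
  obtain ⟨c, hc0⟩ := mem_Alg.1 (star a * a).2
  have hc : Tendsto (fun k => ‖(star a * a).1 k - algebraMap ℂ (B k) c‖) atTop (𝓝 0) := hc0
  -- the element `E(a* a)`
  set y : lp B ∞ := mkBdd (fun k => E k ((star a * a).1 k)) ‖(star a * a).1‖
    (fun k => (hE1 k _).trans (norm_coe_le _ k)) with hy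
  have hEc : ∀ k (d : ℂ), E k (algebraMap ℂ (B k) d) = algebraMap ℂ (B k) d := by
    intro k d
    rw [Algebra.algebraMap_eq_smul_one, map_smul, hE2]
  have hyk : ∀ k, y k - algebraMap ℂ (B k) c = E k ((star a * a).1 k - algebraMap ℂ (B k) c) := by
    intro k
    rw [map_sub, hEc]
    rfl
  have hy1 : Tendsto (fun k => ‖y k - algebraMap ℂ (B k) c‖) atTop (𝓝 0) := by
    refine squeeze_zero (fun k => norm_nonneg _) (fun k => ?_) hc
    rw [hyk]
    exact hE1 k _
  have hyA : y ∈ Alg (normNF B) := ⟨c, hy1⟩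
  have h1 : τ (star a * a - ⟨y, hyA⟩) = 0 := by
    refine apply_eq_zero τ _ ?_ ?_
    · have h2 : Tendsto (fun k => ‖(star a * a).1 k - algebraMap ℂ (B k) c‖ +
          ‖y k - algebraMap ℂ (B k) c‖) atTop (𝓝 0) := by
        have := hc.add hy1
        rwa [add_zero] at this
      refine squeeze_zero (fun k => norm_nonneg _) (fun k => ?_) h2
      change ‖(star a * a).1 k - y k‖ ≤ _
      have e : (star a * a).1 k - y k = ((star a * a).1 k - algebraMap ℂ (B k) c) -
        (y k - algebraMap ℂ (B k) c) := by abel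
      rw [e]
      exact norm_sub_le _ _
    · intro k
      change τ (iotaL k ((star a * a).1 k - E k ((star a * a).1 k))) = 0
      rw [map_sub, map_sub, sub_eq_zero]
      have := hE3 k (τ.comp (iotaL k)) (by
        intro u v
        rw [ContinuousLinearMap.comp_apply, ContinuousLinearMap.comp_apply, iotaL_mul,
          iotaL_mul]
        exact hτ.2.2 _ _) ((star a * a).1 k)
      exact this.symm
  rw [map_sub, sub_eq_zero] at h1
  refine Real.sqrt_le_iff.2 ⟨NN_nonneg _ _, ?_⟩
  rw [h1]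
  calc (τ ⟨y, hyA⟩).re ≤ ‖τ ⟨y, hyA⟩‖ := Complex.re_le_norm _
    _ ≤ ‖τ‖ * ‖(⟨y, hyA⟩ : Alg (normNF B))‖ := τ.le_opNorm _
    _ = ‖y‖ := by rw [hτ.1, one_mul]; rfl
    _ ≤ NN P a.1 ^ 2 := by
      rw [norm_le_iff (sq_nonneg _)]
      intro k
      refine (hE4 k (a.1 k)).trans ?_
      exact pow_le_pow_left₀ (P.nonneg _ _) (p_le_NN P a.1 k) 2

theorem HasExp.good {P : NF B} (hP : HasExp P)
    (hC : ∀ k, ∃ C : ℝ, ∀ b : B k, ‖b‖ ≤ C * P.p k b) : Good P := by
  refine ⟨hC, fun a => le_antisymm ?_ ?_⟩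
  · have : Nonempty {τ : Alg (normNF B) →L[ℂ] ℂ // IsTrace τ} := by
      obtain ⟨τ, h1, -⟩ := hP.attained 0 0
      exact ⟨_, h1.comp_evL (normNF B)⟩
    exact ciSup_le fun τ => hP.norm2_le a τ.2
  · refine NN_le fun k => ?_
    obtain ⟨τ, h1, h2⟩ := hP.attained k (a.1 k)
    refine le_trans ?_ (le_norm2 a (h1.comp_evL (normNF B)))
    exact Real.le_sqrt_of_sq_le h2

lemma HasExp.traces_nonempty {P : NF B} (hP : HasExp P) :
    (traces (Alg (normNF B))).Nonempty := by
  obtain ⟨τ, h1, -⟩ := hP.attained 0 0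
  exact ⟨StrongDual.toWeakDual (τ.comp (evL (normNF B) 0)), h1.comp_evL (normNF B)⟩

end

end Pool.Agent.Work.MP_1fb4c7_an
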