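import Pool.Agent.Work.MP_1fb4c7_an.Traces

/-!
# Sequence algebras over a sequence of C*-algebras

For a sequence of unital C*-algebras `B k` with seminorms `p k` we consider the bounded
sequences which converge at infinity to a scalar with respect to the seminorms.
-/

open scoped ComplexOrder Topology ENNReal
open Filter

set_option linter.unusedSectionVars false

namespace Pool.Agent.Work.MP_1fb4c7_an

noncomputable section

section gen

variable {I : Type*} {A : I → Type*} [∀ i, Nontrivial (A i)] [∀ i, CStarAlgebra (A i)]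

/-- The product of a family of C*-algebras. -/
instance lpCStar : CStarAlgebra (lp A ∞) where

end gen

variable {B : ℕ → Type} [∀ k, CStarAlgebra (B k)] [∀ k, Nontrivial (B k)]

/-- A family of well-behaved seminorms. -/
structure NF (B : ℕ → Type) [∀ k, CStarAlgebra (B k)] where
  p : ∀ k, B k → ℝ
  nonneg : ∀ k b, 0 ≤ p k b
  add : ∀ k a b, p k (a + b) ≤ p k a + p k b
  neg : ∀ k a, p k (-a) = p k a
  star : ∀ k a, p k (Star.star a) = p k a
  mul : ∀ k a b, p k (a * b) ≤ ‖a‖ * p k b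
  le : ∀ k a, p k a ≤ ‖a‖
  scalar : ∀ k (c : ℂ), p k (algebraMap ℂ (B k) c) = ‖c‖

/-- The family of norms. -/
def normNF (B : ℕ → Type) [∀ k, CStarAlgebra (B k)] [∀ k, Nontrivial (B k)] : NF B where
  p := fun _ b => ‖b‖
  nonneg := fun _ b => norm_nonneg b
  add := fun _ a b => norm_add_le a b
  neg := fun _ a => norm_neg a
  star := fun _ a => norm_star a
  mul := fun _ a b => norm_mul_le a b
  le := fun _ _ => le_rfl
  scalar := fun k c => by
    rw [norm_algebraMap, CStarRing.norm_one, mul_one]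

lemma NF.mul' (P : NF B) (k : ℕ) (a b : B k) : P.p k (a * b) ≤ P.p k a * ‖b‖ := by
  rw [← P.star, star_mul, mul_comm, ← norm_star b, ← P.star k a]
  exact P.mul _ _ _

lemma NF.sub (P : NF B) (k : ℕ) (a b : B k) : P.p k (a - b) ≤ P.p k a + P.p k b := by
  rw [sub_eq_add_neg, ← P.neg k b]
  exact P.add _ _ _

lemma NF.sub_comm (P : NF B) (k : ℕ) (a b : B k) : P.p k (a - b) = P.p k (b - a) := by
  rw [← P.neg, neg_sub]

lemma NF.zero (P : NF B) (k : ℕ) : P.p k 0 = 0 := by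
  have := P.scalar k 0
  simpa using this

lemma NF.tri (P : NF B) (k : ℕ) (a b c : B k) :
    P.p k (a - c) ≤ P.p k (a - b) + P.p k (b - c) := by
  have := P.add k (a - b) (b - c)
  rwa [sub_add_sub_cancel] at this

lemma coe_algebraMap (c : ℂ) (k : ℕ) :
    (algebraMap ℂ (lp B ∞) c : ∀ k, B k) k = algebraMap ℂ (B k) c := by
  rw [Algebra.algebraMap_eq_smul_one, Algebra.algebraMap_eq_smul_one]
  rfl

lemma coe_mul (a b : lp B ∞) (k : ℕ) : (a * b : lp B ∞) k = a k * b k := rfl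
lemma coe_add (a b : lp B ∞) (k : ℕ) : (a + b : lp B ∞) k = a k + b k := rfl
lemma coe_sub (a b : lp B ∞) (k : ℕ) : (a - b : lp B ∞) k = a k - b k := rfl
lemma coe_neg (a : lp B ∞) (k : ℕ) : (-a : lp B ∞) k = - a k := rfl
lemma coe_zero (k : ℕ) : (0 : lp B ∞) k = 0 := rfl
lemma coe_one (k : ℕ) : (1 : lp B ∞) k = 1 := rfl
lemma coe_smul (c : ℂ) (a : lp B ∞) (k : ℕ) : (c • a : lp B ∞) k = c • a k := rfl
lemma coe_star (a : lp B ∞) (k : ℕ) : (star a : lp B ∞) k = star (a k) := rfl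

/-- A bounded sequence as an element of the product. -/
def mkBdd (f : ∀ k, B k) (C : ℝ) (h : ∀ k, ‖f k‖ ≤ C) : lp B ∞ :=
  ⟨f, memℓp_infty ⟨C, by rintro _ ⟨k, rfl⟩; exact h k⟩⟩

@[simp] lemma mkBdd_apply (f : ∀ k, B k) (C : ℝ) (h : ∀ k, ‖f k‖ ≤ C) (k : ℕ) :
    (mkBdd f C h) k = f k := rfl

lemma norm_coe_le (a : lp B ∞) (k : ℕ) : ‖a k‖ ≤ ‖a‖ :=
  lp.norm_apply_le_norm ENNReal.top_ne_zero a k

lemma norm_le_iff {a : lp B ∞} {C : ℝ} (hC : 0 ≤ C) : ‖a‖ ≤ C ↔ ∀ k, ‖a k‖ ≤ C :=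
  ⟨fun h k => (norm_coe_le a k).trans h, fun h => lp.norm_le_of_forall_le hC h⟩

/-- The bounded sequences which converge at infinity to a scalar with respect to the seminorms
in `P`. -/
def Alg (P : NF B) : StarSubalgebra ℂ (lp B ∞) where
  carrier := {b | ∃ c : ℂ, Tendsto (fun k => P.p k (b k - algebraMap ℂ (B k) c)) atTop (𝓝 0)}
  mul_mem' := by
    rintro a b ⟨c, hc⟩ ⟨d, hd⟩
    refine ⟨c * d, ?_⟩
    have h : Tendsto (fun k => ‖a‖ * P.p k (b k - algebraMap ℂ (B k) d) +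
        P.p k (a k - algebraMap ℂ (B k) c) * ‖d‖) atTop (𝓝 0) := by
      simpa using (hd.const_mul ‖a‖).add (hc.mul_const ‖d‖)
    refine squeeze_zero (fun k => P.nonneg _ _) (fun k => ?_) h
    have e : (a * b : lp B ∞) k - algebraMap ℂ (B k) (c * d) =
        a k * (b k - algebraMap ℂ (B k) d) +
          (a k - algebraMap ℂ (B k) c) * algebraMap ℂ (B k) d := by
      rw [coe_mul, map_mul]; noncomm_ring
    rw [e]
    refine (P.add _ _ _).trans (add_le_add ?_ ?_)
    · refine (P.mul _ _ _).trans ?_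
      exact mul_le_mul_of_nonneg_right (norm_coe_le a k) (P.nonneg _ _)
    · refine (P.mul' _ _ _).trans ?_
      rw [norm_algebraMap, CStarRing.norm_one, mul_one]
  add_mem' := by
    rintro a b ⟨c, hc⟩ ⟨d, hd⟩
    refine ⟨c + d, ?_⟩
    have h : Tendsto (fun k => P.p k (a k - algebraMap ℂ (B k) c) +
        P.p k (b k - algebraMap ℂ (B k) d)) atTop (𝓝 0) := by
      simpa using hc.add hd
    refine squeeze_zero (fun k => P.nonneg _ _) (fun k => ?_) h
    have e : (a + b : lp B ∞) k - algebraMap ℂ (B k) (c + d) =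
        (a k - algebraMap ℂ (B k) c) + (b k - algebraMap ℂ (B k) d) := by
      rw [coe_add, map_add]; abel
    rw [e]
    exact P.add _ _ _
  algebraMap_mem' := by
    intro r
    refine ⟨r, ?_⟩
    have : (fun k => P.p k ((algebraMap ℂ (lp B ∞) r : ∀ k, B k) k - algebraMap ℂ (B k) r)) =
        fun _ => 0 := by
      funext k
      rw [coe_algebraMap, sub_self, P.zero]
    rw [this]
    exact tendsto_const_nhds
  star_mem' := by
    rintro a ⟨c, hc⟩
    refine ⟨star c, ?_⟩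
    have : (fun k => P.p k ((star a : lp B ∞) k - algebraMap ℂ (B k) (star c))) =
        fun k => P.p k (a k - algebraMap ℂ (B k) c) := by
      funext k
      rw [← P.star k (a k - _), star_sub, coe_star, algebraMap_star_comm]
    rw [this]
    exact hc

lemma mem_Alg {P : NF B} {b : lp B ∞} : b ∈ Alg P ↔
    ∃ c : ℂ, Tendsto (fun k => P.p k (b k - algebraMap ℂ (B k) c)) atTop (𝓝 0) := Iff.rfl

lemma mem_of_approx (P : NF B) (y : lp B ∞)
    (h : ∀ ε : ℝ, 0 < ε → ∃ a ∈ Alg P, ∀ k, P.p k (y k - a k) ≤ ε) : y ∈ Alg P := by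
  have h1 : ∀ n : ℕ, ∃ a ∈ Alg P, ∀ k, P.p k (y k - a k) ≤ 1 / ((n : ℝ) + 1) :=
    fun n => h _ (by positivity)
  choose a ha hay using h1
  choose c hc using fun n => mem_Alg.1 (ha n)
  have key : ∀ n m, ‖c n - c m‖ ≤ 1 / ((n : ℝ) + 1) + 1 / ((m : ℝ) + 1) := by
    intro n m
    have h2 : Tendsto (fun k => P.p k (a n k - algebraMap ℂ (B k) (c n)) +
        (1 / ((n : ℝ) + 1) + 1 / ((m : ℝ) + 1)) +
        P.p k (a m k - algebraMap ℂ (B k) (c m))) atTop
        (𝓝 (0 + (1 / ((n : ℝ) + 1) + 1 / ((m : ℝ) + 1)) + 0)) :=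
      ((hc n).add tendsto_const_nhds).add (hc m)
    rw [zero_add, add_zero] at h2
    refine ge_of_tendsto' h2 fun k => ?_
    rw [← P.scalar k (c n - c m), map_sub]
    have e1 := P.tri k (algebraMap ℂ (B k) (c n)) (a n k) (algebraMap ℂ (B k) (c m))
    have e2 := P.tri k (a n k) (y k) (algebraMap ℂ (B k) (c m))
    have e3 := P.tri k (y k) (a m k) (algebraMap ℂ (B k) (c m))
    have e4 := hay n k
    have e5 := hay m k
    rw [P.sub_comm k (algebraMap ℂ (B k) (c n)) (a n k)] at e1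
    rw [P.sub_comm k (a n k) (y k)] at e2
    linarith
  have hcau : CauchySeq c := by
    refine Metric.cauchySeq_iff'.2 fun ε hε => ?_
    obtain ⟨N, hN⟩ := exists_nat_one_div_lt (half_pos hε)
    refine ⟨N, fun n hn => ?_⟩
    rw [dist_eq_norm]
    have e1 := key n N
    have e2 : 1 / ((n : ℝ) + 1) ≤ 1 / ((N : ℝ) + 1) := by
      have : (N : ℝ) ≤ n := by exact_mod_cast hn
      gcongr
    linarith
  obtain ⟨d, hd⟩ := cauchySeq_tendsto_of_complete hcau
  refine ⟨d, ?_⟩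
  rw [Metric.tendsto_atTop]
  intro ε hε
  obtain ⟨n, hn1, hn2⟩ : ∃ n : ℕ, 1 / ((n : ℝ) + 1) < ε / 3 ∧ ‖c n - d‖ < ε / 3 := by
    have e1 : ∀ᶠ n : ℕ in atTop, 1 / ((n : ℝ) + 1) < ε / 3 :=
      tendsto_one_div_add_atTop_nhds_zero_nat.eventually_lt_const (by positivity)
    have e2 : ∀ᶠ n : ℕ in atTop, ‖c n - d‖ < ε / 3 := by
      have := (tendsto_iff_norm_sub_tendsto_zero.1 hd)
      exact this.eventually_lt_const (by positivity)
    exact (e1.and e2).exists
  obtain ⟨K, hK⟩ := (Metric.tendsto_atTop.1 (hc n)) (ε / 3) (by positivity)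
  refine ⟨K, fun k hk => ?_⟩
  have e3 := hK k hk
  rw [Real.dist_eq, sub_zero, abs_of_nonneg (P.nonneg _ _)] at e3 ⊢
  have e4 := P.tri k (y k) (a n k) (algebraMap ℂ (B k) d)
  have e5 := P.tri k (a n k) (algebraMap ℂ (B k) (c n)) (algebraMap ℂ (B k) d)
  rw [← map_sub (algebraMap ℂ (B k)) (c n) d, P.scalar] at e5
  have e6 := hay n k
  linarith

lemma isClosed_Alg (P : NF B) : IsClosed (Alg P : Set (lp B ∞)) := by
  rw [← isSeqClosed_iff_isClosed]
  intro x y hx hxy
  refine mem_of_approx P y fun ε hε => ?_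
  obtain ⟨n, hn⟩ := ((tendsto_iff_norm_sub_tendsto_zero.1 hxy).eventually_lt_const hε).exists
  refine ⟨x n, hx n, fun k => ?_⟩
  rw [P.sub_comm]
  exact ((P.le _ _).trans (norm_coe_le (x n - y) k)).trans hn.le

instance (P : NF B) : IsClosed (Alg P : Set (lp B ∞)) := isClosed_Alg P

instance (P : NF B) : CStarAlgebra (Alg P) := inferInstance

end

end Pool.Agent.Work.MP_1fb4c7_an
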